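import Pool.Agent.Helper57.ZM.Words

set_option autoImplicit false
open Filter Topology

namespace Pool.Agent.Helper57.ZM

/-- orbit data with both coordinates near intervals of length one half -/
structure Dat (m : ℤ) (x y e : ℝ) (a b : ℕ → ℝ) (s t c : ℕ → ℤ) : Prop extends Orb m a b s t c where
  ha : ∀ k, x - e ≤ a k ∧ a k ≤ x + 1 / 2 + e
  hb : ∀ k, y - e ≤ b k ∧ b k ≤ y + 1 / 2 + e
  hs : ∀ k, s k = 0 ∨ s k = 1
  ht : ∀ k, t k = 0 ∨ t k = 1
  hr : ∀ k, 0 ≤ c k ∧ c k ≤ m - 1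

variable {m : ℤ} {x y e : ℝ} {a b : ℕ → ℝ} {s t c : ℕ → ℤ}

/-- eventual periodicity of the digits -/
def EP (s : ℕ → ℤ) : Prop := ∃ K p : ℕ, 0 < p ∧ ∀ j, s (K + p + j) = s (K + j)

theorem EP_const (k : ℕ) (v : ℤ) (h : ∀ j, s (k + j) = v) : EP s :=
  ⟨k, 1, one_pos, fun j => by rw [h j, show k + 1 + j = k + (1 + j) by ring, h (1 + j)]⟩

theorem Dat.shift (h : Dat m x y e a b s t c) (j : ℕ) :
    Dat m x y e (fun k => a (j + k)) (fun k => b (j + k)) (fun k => s (j + k)) (fun k => t (j + k))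
      (fun k => c (j + k)) :=
  { toOrb := h.toOrb.shift j
    ha := fun k => h.ha _
    hb := fun k => h.hb _
    hs := fun k => h.hs _
    ht := fun k => h.ht _
    hr := fun k => h.hr _ }

/-- the state `0` is absorbing and has constant digit `0` -/
theorem Dat.zero (h : Dat m x y e a b s t c) (hm : 2 ≤ m) (k : ℕ) (h0 : c k = 0) : EP s := by
  have key : ∀ j, c (k + j) = 0 := by
    intro j
    induction j with
    | zero => exact h0
    | succ j ih =>
      have h1 := h.step (k + j)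
      have h2 := h.hr (k + j + 1)
      rw [ih] at h1
      rw [← add_assoc]
      rcases h.hs (k + j) with e1 | e1 <;> rcases h.ht (k + j) with e2 | e2 <;>
        rw [e1, e2] at h1 <;> omega
  refine EP_const k 0 fun j => ?_
  have h1 := h.step (k + j)
  have h2 := key j
  have h3 := key (j + 1)
  rw [← add_assoc] at h3
  rw [h2, h3] at h1
  rcases h.hs (k + j) with e1 | e1
  · exact e1
  · rcases h.ht (k + j) with e2 | e2 <;> rw [e1, e2] at h1 <;> omega

/-- the state `m - 1` is absorbing and has constant digit `1` -/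
theorem Dat.top (h : Dat m x y e a b s t c) (hm : 2 ≤ m) (k : ℕ) (h0 : c k = m - 1) : EP s := by
  have key : ∀ j, c (k + j) = m - 1 := by
    intro j
    induction j with
    | zero => exact h0
    | succ j ih =>
      have h1 := h.step (k + j)
      have h2 := h.hr (k + j + 1)
      rw [ih] at h1
      rw [← add_assoc]
      rcases h.hs (k + j) with e1 | e1 <;> rcases h.ht (k + j) with e2 | e2 <;>
        rw [e1, e2] at h1 <;> omega
  refine EP_const k 1 fun j => ?_
  have h1 := h.step (k + j)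
  have h2 := key j
  have h3 := key (j + 1)
  rw [← add_assoc] at h3
  rw [h2, h3] at h1
  rcases h.hs (k + j) with e1 | e1
  · rcases h.ht (k + j) with e2 | e2 <;> rw [e1, e2] at h1 <;> omega
  · exact e1

theorem Dat.two (h : Dat 2 x y e a b s t c) : EP s := by
  have h1 := h.hr 0
  have h2 : c 0 = 0 ∨ c 0 = 2 - 1 := by omega
  rcases h2 with h2 | h2
  · exact h.zero le_rfl 0 h2
  · exact h.top le_rfl 0 h2

theorem Dat.four (h : Dat 4 x y e a b s t c) : EP s := by
  by_cases h0 : ∃ k, c k = 0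
  · obtain ⟨k, hk⟩ := h0
    exact h.zero (by norm_num) k hk
  by_cases h3 : ∃ k, c k = 4 - 1
  · obtain ⟨k, hk⟩ := h3
    exact h.top (by norm_num) k hk
  push Not at h0 h3
  have key : ∀ k, (c k = 1 ∧ s k = 0 ∧ c (k + 1) = 2) ∨ (c k = 2 ∧ s k = 1 ∧ c (k + 1) = 1) := by
    intro k
    have h1 := h.step k
    have h2 := h.hr k
    have h4 := h.hr (k + 1)
    have h5 := h0 k
    have h6 := h3 k
    have h7 := h0 (k + 1)
    have h8 := h3 (k + 1)
    rcases h.hs k with e1 | e1 <;> rcases h.ht k with e2 | e2 <;>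
        rw [e1, e2] at h1 <;> omega
  refine ⟨0, 2, by norm_num, fun j => ?_⟩
  have k1 := key j
  have k2 := key (j + 1)
  have k3 := key (j + 1 + 1)
  rw [show 0 + 2 + j = j + 1 + 1 by ring, show 0 + j = j by ring]
  omega

/-- one step for `m = 5` -/
theorem Dat.five_step (h : Dat 5 x y e a b s t c) (h0 : ∀ k, c k ≠ 0) (h4 : ∀ k, c k ≠ 5 - 1)
    (k : ℕ) : (c k = 1 ∧ s k = 0 ∧ t k = 1 ∧ c (k + 1) = 2) ∨ (c k = 3 ∧ s k = 1 ∧ t k = 0 ∧ c (k + 1) = 2) ∨
      (c k = 2 ∧ s k = 0 ∧ t k = 0 ∧ c (k + 1) = 3) ∨ (c k = 2 ∧ s k = 1 ∧ t k = 1 ∧ c (k + 1) = 1) := by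
  have h1 := h.step k
  have h2 := h.hr k
  have h3 := h.hr (k + 1)
  have h5 := h0 k
  have h6 := h4 k
  have h7 := h0 (k + 1)
  have h8 := h4 (k + 1)
  rcases h.hs k with e1 | e1 <;> rcases h.ht k with e2 | e2 <;>
      rw [e1, e2] at h1 <;> omega

theorem Dat.five_aux (h : Dat 5 x y e a b s t c) (he : e ≤ 1 / 100) (h0 : ∀ k, c k ≠ 0)
    (h4 : ∀ k, c k ≠ 5 - 1) (hc : c 0 = 2) : EP s := by
  have hst := h.five_step h0 h4
  have hc2 : ∀ j, c (2 * j) = 2 := by
    intro j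
    induction j with
    | zero => exact hc
    | succ j ih =>
      have k1 := hst (2 * j)
      have k2 := hst (2 * j + 1)
      rw [show 2 * (j + 1) = 2 * j + 1 + 1 by ring]
      omega
  -- the choice at the visits of the state 2
  let w : ℕ → Bool := fun j => decide (s (2 * j) = 1)
  have hw : ∀ j, (w j = true ∧ s (2 * j) = 1 ∧ t (2 * j) = 1 ∧ s (2 * j + 1) = 0 ∧ t (2 * j + 1) = 1) ∨
      (w j = false ∧ s (2 * j) = 0 ∧ t (2 * j) = 0 ∧ s (2 * j + 1) = 1 ∧ t (2 * j + 1) = 0) := by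
    intro j
    have k1 := hst (2 * j)
    have k2 := hst (2 * j + 1)
    have k3 := hc2 j
    simp only [w, decide_eq_true_eq, decide_eq_false_iff_not]
    omega
  -- value of `b` at the visits
  have hbv : ∀ j, b (2 * j) = (4 / 9) * b (2 * (j + 1)) + (if w j then 5 / 9 else 0) := by
    intro j
    have e1 := h.sb (2 * j)
    have e2 := h.sb (2 * j + 1)
    rw [show 2 * (j + 1) = 2 * j + 1 + 1 by ring]
    rcases hw j with ⟨h1, -, h2, -, h3⟩ | ⟨h1, -, h2, -, h3⟩
    · rw [h2] at e1; rw [h3] at e2; rw [h1]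
      push_cast at e1 e2
      simp only [if_true]
      linarith
    · rw [h2] at e1; rw [h3] at e2; rw [h1]
      push_cast at e1 e2
      simp only [Bool.false_eq_true, if_false]
      linarith
  have hbd : ∀ k l, |b k - b l| ≤ 1 / 2 + 2 * e := by
    intro k l
    have := h.hb k
    have := h.hb l
    rw [abs_le]
    constructor <;> linarith [(h.hb k).1, (h.hb k).2, (h.hb l).1, (h.hb l).2]
  obtain ⟨L, p, hp, hper⟩ := left_special w 4 (by
    intro j j' hjj
    by_contra hne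
    have q1 : w (j + 1) = w (j' + 1) := hjj 1 (by norm_num) (by norm_num)
    have q2 : w (j + 2) = w (j' + 2) := hjj 2 (by norm_num) (by norm_num)
    have q3 : w (j + 3) = w (j' + 3) := hjj 3 (by norm_num) (by norm_num)
    have q4 : w (j + 4) = w (j' + 4) := hjj 4 (by norm_num) (by norm_num)
    have r0 := hbv j
    have r1 := hbv (j + 1)
    have r2 := hbv (j + 2)
    have r3 := hbv (j + 3)
    have r4 := hbv (j + 4)
    have r0' := hbv j'
    have r1' := hbv (j' + 1)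
    have r2' := hbv (j' + 2)
    have r3' := hbv (j' + 3)
    have r4' := hbv (j' + 4)
    rw [show j + 1 + 1 = j + 2 by ring] at r1
    rw [show j + 2 + 1 = j + 3 by ring] at r2
    rw [show j + 3 + 1 = j + 4 by ring] at r3
    rw [show j + 4 + 1 = j + 5 by ring] at r4
    rw [show j' + 1 + 1 = j' + 2 by ring, ← q1] at r1'
    rw [show j' + 2 + 1 = j' + 3 by ring, ← q2] at r2'
    rw [show j' + 3 + 1 = j' + 4 by ring, ← q3] at r3'
    rw [show j' + 4 + 1 = j' + 5 by ring, ← q4] at r4'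
    have d5 := hbd (2 * (j + 5)) (2 * (j' + 5))
    have d0 := hbd (2 * j) (2 * j')
    rw [abs_le] at d5 d0
    rcases hj : w j with _ | _ <;> rcases hj' : w j' with _ | _
    · exact hne (by rw [hj, hj'])
    · rw [hj] at r0; rw [hj'] at r0'
      simp only [Bool.false_eq_true, if_false, if_true] at r0 r0'
      linarith [d5.1, d5.2, d0.1, d0.2]
    · rw [hj] at r0; rw [hj'] at r0'
      simp only [Bool.false_eq_true, if_false, if_true] at r0 r0'
      linarith [d5.1, d5.2, d0.1, d0.2]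
    · exact hne (by rw [hj, hj']))
  refine ⟨2 * L, 2 * p, by omega, fun j => ?_⟩
  obtain ⟨i, hi⟩ : ∃ i, j = 2 * i ∨ j = 2 * i + 1 := ⟨j / 2, by omega⟩
  have hwp := hper i
  rcases hi with hi | hi
  · rw [hi, show 2 * L + 2 * p + 2 * i = 2 * (L + p + i) by ring,
      show 2 * L + 2 * i = 2 * (L + i) by ring]
    rcases hw (L + p + i) with h1 | h1 <;> rcases hw (L + i) with h2 | h2
    · rw [h1.2.1, h2.2.1]
    · rw [h1.1, h2.1] at hwp; exact absurd hwp (by decide)
    · rw [h1.1, h2.1] at hwp; exact absurd hwp (by decide)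
    · rw [h1.2.1, h2.2.1]
  · rw [hi, show 2 * L + 2 * p + (2 * i + 1) = 2 * (L + p + i) + 1 by ring,
      show 2 * L + (2 * i + 1) = 2 * (L + i) + 1 by ring]
    rcases hw (L + p + i) with h1 | h1 <;> rcases hw (L + i) with h2 | h2
    · rw [h1.2.2.2.1, h2.2.2.2.1]
    · rw [h1.1, h2.1] at hwp; exact absurd hwp (by decide)
    · rw [h1.1, h2.1] at hwp; exact absurd hwp (by decide)
    · rw [h1.2.2.2.1, h2.2.2.2.1]

theorem EP_shift (k : ℕ) (h : EP (fun j => s (k + j))) : EP s := by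
  obtain ⟨K, p, hp, h⟩ := h
  refine ⟨k + K, p, hp, fun j => ?_⟩
  have := h j
  simp only at this
  rw [show k + K + p + j = k + (K + p + j) by ring, show k + K + j = k + (K + j) by ring]
  exact this

theorem Dat.five (h : Dat 5 x y e a b s t c) (he : e ≤ 1 / 100) : EP s := by
  by_cases h0 : ∃ k, c k = 0
  · obtain ⟨k, hk⟩ := h0
    exact h.zero (by norm_num) k hk
  by_cases h4 : ∃ k, c k = 5 - 1
  · obtain ⟨k, hk⟩ := h4
    exact h.top (by norm_num) k hk
  push Not at h0 h4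
  rcases h.five_step h0 h4 0 with h1 | h1 | h1 | h1
  · exact EP_shift 1 ((h.shift 1).five_aux he (fun k => h0 _) (fun k => h4 _) h1.2.2.2)
  · exact EP_shift 1 ((h.shift 1).five_aux he (fun k => h0 _) (fun k => h4 _) h1.2.2.2)
  · exact h.five_aux he h0 h4 h1.1
  · exact h.five_aux he h0 h4 h1.1

/-- one step for `m = 7` -/
theorem Dat.seven_step (h : Dat 7 x y e a b s t c) (h0 : ∀ k, c k ≠ 0) (h6 : ∀ k, c k ≠ 7 - 1)
    (k : ℕ) : (c k = 1 ∧ s k = 0 ∧ t k = 1 ∧ c (k + 1) = 2) ∨ (c k = 2 ∧ s k = 0 ∧ t k = 0 ∧ c (k + 1) = 3) ∨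
      (c k = 3 ∧ s k = 0 ∧ t k = 1 ∧ c (k + 1) = 5) ∨ (c k = 3 ∧ s k = 1 ∧ t k = 0 ∧ c (k + 1) = 1) ∨
      (c k = 4 ∧ s k = 1 ∧ t k = 1 ∧ c (k + 1) = 3) ∨ (c k = 5 ∧ s k = 1 ∧ t k = 0 ∧ c (k + 1) = 4) := by
  have h1 := h.step k
  have h2 := h.hr k
  have h3 := h.hr (k + 1)
  have h5 := h0 k
  have h6' := h6 k
  have h7 := h0 (k + 1)
  have h8 := h6 (k + 1)
  rcases h.hs k with e1 | e1 <;> rcases h.ht k with e2 | e2 <;>
      rw [e1, e2] at h1 <;> omega

theorem Dat.seven_aux (h : Dat 7 x y e a b s t c) (he : e ≤ 1 / 200) (h0 : ∀ k, c k ≠ 0)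
    (h6 : ∀ k, c k ≠ 7 - 1) (hc : c 0 = 3) : EP s := by
  have hst := h.seven_step h0 h6
  have hc3 : ∀ j, c (3 * j) = 3 := by
    intro j
    induction j with
    | zero => exact hc
    | succ j ih =>
      have k1 := hst (3 * j)
      have k2 := hst (3 * j + 1)
      have k3 := hst (3 * j + 1 + 1)
      rw [show 3 * (j + 1) = 3 * j + 1 + 1 + 1 by ring]
      omega
  have hw : ∀ j, (s (3 * j) = 0 ∧ s (3 * j + 1) = 1 ∧ s (3 * j + 1 + 1) = 1) ∨
      (s (3 * j) = 1 ∧ s (3 * j + 1) = 0 ∧ s (3 * j + 1 + 1) = 0) := by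
    intro j
    have k1 := hst (3 * j)
    have k2 := hst (3 * j + 1)
    have k3 := hst (3 * j + 1 + 1)
    have k4 := hc3 j
    omega
  -- the two kinds of loops exclude each other
  have excl : ∀ i j, s (3 * i) = 0 → s (3 * j) = 1 → False := by
    intro i j hi hj
    have i1 : s (3 * i + 1) = 1 ∧ s (3 * i + 1 + 1) = 1 := by
      rcases hw i with h | h
      · exact h.2
      · omega
    have j1 : s (3 * j + 1) = 0 ∧ s (3 * j + 1 + 1) = 0 := by
      rcases hw j with h | h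
      · omega
      · exact h.2
    have a0 := h.sa (3 * i)
    have a1 := h.sa (3 * i + 1)
    have a2 := h.sa (3 * i + 1 + 1)
    have b0 := h.sa (3 * j)
    have b1 := h.sa (3 * j + 1)
    have b2 := h.sa (3 * j + 1 + 1)
    rw [hi] at a0; rw [i1.1] at a1; rw [i1.2] at a2
    rw [hj] at b0; rw [j1.1] at b1; rw [j1.2] at b2
    push_cast at a0 a1 a2 b0 b1 b2
    -- values at the next visit
    have c1 := h.hc (3 * (i + 1))
    have c2 := h.hc (3 * (j + 1))
    rw [hc3 (i + 1)] at c1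
    rw [hc3 (j + 1)] at c2
    rw [show 3 * (i + 1) = 3 * i + 1 + 1 + 1 by ring] at c1
    rw [show 3 * (j + 1) = 3 * j + 1 + 1 + 1 by ring] at c2
    push_cast at c1 c2
    have d1 := h.hb (3 * i + 1 + 1 + 1)
    have d2 := h.hb (3 * j + 1 + 1 + 1)
    have f1 := h.ha (3 * i + 1)
    have f2 := h.ha (3 * j + 1)
    linarith [d1.1, d1.2, d2.1, d2.2, f1.1, f1.2, f2.1, f2.2]
  by_cases hall : ∀ j, s (3 * j) = 0
  · refine ⟨0, 3, by norm_num, fun j => ?_⟩
    have hp : ∀ i, s (3 * i) = 0 ∧ s (3 * i + 1) = 1 ∧ s (3 * i + 1 + 1) = 1 := by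
      intro i
      have := hall i
      rcases hw i with h | h
      · exact h
      · omega
    obtain ⟨i, hi⟩ : ∃ i, j = 3 * i ∨ j = 3 * i + 1 ∨ j = 3 * i + 2 := ⟨j / 3, by omega⟩
    have p1 := hp i
    have p2 := hp (i + 1)
    rw [zero_add, zero_add]
    rcases hi with hi | hi | hi
    · rw [hi, show 3 + 3 * i = 3 * (i + 1) by ring, p1.1, p2.1]
    · rw [hi, show 3 + (3 * i + 1) = 3 * (i + 1) + 1 by ring, p1.2.1, p2.2.1]
    · rw [hi, show 3 + (3 * i + 2) = 3 * (i + 1) + 1 + 1 by ring, p2.2.2,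
        show 3 * i + 2 = 3 * i + 1 + 1 by ring, p1.2.2]
  · push Not at hall
    obtain ⟨j0, hj0⟩ := hall
    have hj1 : s (3 * j0) = 1 := by
      rcases h.hs (3 * j0) with h | h
      · exact absurd h hj0
      · exact h
    have hp : ∀ i, s (3 * i) = 1 ∧ s (3 * i + 1) = 0 ∧ s (3 * i + 1 + 1) = 0 := by
      intro i
      rcases hw i with h | h
      · exact absurd hj1 (fun hh => excl i j0 h.1 hh)
      · exact h
    refine ⟨0, 3, by norm_num, fun j => ?_⟩
    obtain ⟨i, hi⟩ : ∃ i, j = 3 * i ∨ j = 3 * i + 1 ∨ j = 3 * i + 2 := ⟨j / 3, by omega⟩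
    have p1 := hp i
    have p2 := hp (i + 1)
    rw [zero_add, zero_add]
    rcases hi with hi | hi | hi
    · rw [hi, show 3 + 3 * i = 3 * (i + 1) by ring, p1.1, p2.1]
    · rw [hi, show 3 + (3 * i + 1) = 3 * (i + 1) + 1 by ring, p1.2.1, p2.2.1]
    · rw [hi, show 3 + (3 * i + 2) = 3 * (i + 1) + 1 + 1 by ring, p2.2.2,
        show 3 * i + 2 = 3 * i + 1 + 1 by ring, p1.2.2]

theorem Dat.seven (h : Dat 7 x y e a b s t c) (he : e ≤ 1 / 200) : EP s := by
  by_cases h0 : ∃ k, c k = 0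
  · obtain ⟨k, hk⟩ := h0
    exact h.zero (by norm_num) k hk
  by_cases h4 : ∃ k, c k = 7 - 1
  · obtain ⟨k, hk⟩ := h4
    exact h.top (by norm_num) k hk
  push Not at h0 h4
  have aux : ∀ k, c k = 3 → EP s := fun k hk =>
    EP_shift k ((h.shift k).seven_aux he (fun _ => h0 _) (fun _ => h4 _) (by simpa using hk))
  have k0 := h.seven_step h0 h4 0
  have k1 := h.seven_step h0 h4 1
  have k2 := h.seven_step h0 h4 2
  have : c 0 = 3 ∨ c 1 = 3 ∨ c 2 = 3 := by
    simp only [zero_add] at k0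
    rw [show (1 : ℕ) + 1 = 2 by norm_num] at k1
    omega
  rcases this with h | h | h
  · exact aux 0 h
  · exact aux 1 h
  · exact aux 2 h

end Pool.Agent.Helper57.ZM
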