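import Pool.Agent.Helper57.ZM.Core

set_option autoImplicit false
open Filter Topology

namespace Pool.Agent.Helper57.ZM

/-- the orbit of `1/2` has odd numerators over growing powers of two -/
theorem odd_orbit (x : ℕ → ℝ) (z : ℕ → ℤ) (hx : ∀ k, 2 * x (k + 1) = 3 * x k - z k)
    (h0 : x 0 = 1 / 2) (k : ℕ) : ∃ r : ℤ, Odd r ∧ 2 ^ (k + 1) * x k = r := by
  induction k with
  | zero => exact ⟨1, odd_one, by rw [h0]; norm_num⟩
  | succ k ih =>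
    obtain ⟨r, hr, h⟩ := ih
    refine ⟨3 * r - 2 ^ (k + 1) * z k, ?_, ?_⟩
    · refine Odd.sub_even (Odd.mul (by decide) hr) ?_
      rw [pow_succ]
      exact ⟨2 ^ k * z k, by ring⟩
    · push_cast
      rw [← h, pow_succ (2 : ℝ) (k + 1), mul_assoc, hx k]
      ring

theorem odd_ne_zero (x : ℕ → ℝ) (z : ℕ → ℤ) (hx : ∀ k, 2 * x (k + 1) = 3 * x k - z k)
    (h0 : x 0 = 1 / 2) (k : ℕ) : x k ≠ 0 := by
  intro h
  obtain ⟨r, hr, h1⟩ := odd_orbit x z hx h0 k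
  rw [h, mul_zero] at h1
  have : r = 0 := by exact_mod_cast h1.symm
  rw [this] at hr
  exact absurd hr (by decide)

theorem odd_inj (x : ℕ → ℝ) (z : ℕ → ℤ) (hx : ∀ k, 2 * x (k + 1) = 3 * x k - z k)
    (h0 : x 0 = 1 / 2) (k p : ℕ) (hp : 0 < p) : x (k + p) ≠ x k := by
  intro h
  obtain ⟨r, hr, h1⟩ := odd_orbit x z hx h0 k
  obtain ⟨r', hr', h2⟩ := odd_orbit x z hx h0 (k + p)
  rw [h, show k + p + 1 = p + (k + 1) by ring, pow_add, mul_assoc, h1] at h2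
  have h3 : (2 : ℤ) ^ p * r = r' := by exact_mod_cast h2
  rw [← h3] at hr'
  rw [Int.odd_mul] at hr'
  have h4 : ¬ Odd ((2 : ℤ) ^ p) := by
    rw [Int.not_odd_iff_even]
    exact (Int.even_pow.mpr ⟨by decide, by omega⟩)
  exact h4 hr'.1

theorem odd_ne_half (x : ℕ → ℝ) (z : ℕ → ℤ) (hx : ∀ k, 2 * x (k + 1) = 3 * x k - z k)
    (h0 : x 0 = 1 / 2) (k : ℕ) (hk : 0 < k) : x k ≠ 1 / 2 := by
  have := odd_inj x z hx h0 0 k hk
  rw [zero_add, h0] at this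
  exact this

/-- not all of `m x_k` are integers -/
theorem odd_not_int (x : ℕ → ℝ) (z : ℕ → ℤ) (hx : ∀ k, 2 * x (k + 1) = 3 * x k - z k)
    (h0 : x 0 = 1 / 2) (m : ℤ) (hm : m ≠ 0) (K : ℕ)
    (h : ∀ k, K ≤ k → ∃ c : ℤ, (m : ℝ) * x k = c) : False := by
  have key : ∀ k, K ≤ k → (2 : ℤ) ^ (k + 1) ∣ m := by
    intro k hk
    obtain ⟨c, hc⟩ := h k hk
    obtain ⟨r, hr, h1⟩ := odd_orbit x z hx h0 k
    have h2 : (m : ℝ) * r = 2 ^ (k + 1) * c := by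
      rw [← h1, ← hc]; ring
    have h3 : m * r = 2 ^ (k + 1) * c := by exact_mod_cast h2
    have h4 : (2 : ℤ) ^ (k + 1) ∣ m * r := ⟨c, h3⟩
    refine IsCoprime.dvd_of_dvd_mul_right ?_ h4
    refine IsCoprime.pow_left ?_
    obtain ⟨q, hq⟩ := hr
    exact ⟨-q, 1, by rw [hq]; ring⟩
  have h1 := Int.le_of_dvd (abs_pos.mpr hm) ((dvd_abs _ _).mpr (key (K + m.natAbs) (by omega)))
  have h2 : (m.natAbs : ℤ) < 2 ^ m.natAbs := by exact_mod_cast Nat.lt_two_pow_self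
  have h3 : (2 : ℤ) ^ m.natAbs ≤ 2 ^ (K + m.natAbs + 1) :=
    pow_le_pow_right₀ (by norm_num) (by omega)
  have h4 : |m| = (m.natAbs : ℤ) := Int.abs_eq_natAbs m
  omega

/-- in the closed half, after `0` comes `0` or `1/2` -/
theorem after_zero (x : ℕ → ℝ) (z : ℕ → ℤ) (hx : ∀ k, 2 * x (k + 1) = 3 * x k - z k)
    (hC : ∀ k, 0 ≤ x k ∧ x k ≤ 1 / 2) (k : ℕ) (h0 : x k = 0) :
    x (k + 1) = 0 ∨ x (k + 1) = 1 / 2 := by
  have h1 := hx k
  have h2 := hC (k + 1)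
  rw [h0] at h1
  have h3 : (-2 : ℝ) < z k := by linarith [h2.2]
  have h4 : (z k : ℝ) < 1 := by linarith [h2.1]
  have h5 : -2 < z k := by exact_mod_cast h3
  have h6 : z k < 1 := by exact_mod_cast h4
  have h7 : z k = -1 ∨ z k = 0 := by omega
  rcases h7 with h7 | h7 <;> rw [h7] at h1 <;> push_cast at h1
  · right; linarith
  · left; linarith

theorem stays_zero (x : ℕ → ℝ) (z : ℕ → ℤ) (hx : ∀ k, 2 * x (k + 1) = 3 * x k - z k)
    (hC : ∀ k, 0 ≤ x k ∧ x k ≤ 1 / 2) (K : ℕ) (hh : ∀ k, K ≤ k → x k ≠ 1 / 2) (h0 : x K = 0) :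
    ∀ k, K ≤ k → x k = 0 := by
  intro k hk
  induction k, hk using Nat.le_induction with
  | base => exact h0
  | succ k hk ih =>
    rcases after_zero x z hx hC k ih with h | h
    · exact h
    · exact absurd h (hh (k + 1) (by omega))

variable {m : ℤ} {a b : ℕ → ℝ} {s t c : ℕ → ℤ}

theorem Orb.half_tail (h : Orb m a b s t c) (hm : 2 ≤ |m|) (ha : ∀ k, 0 ≤ a k ∧ a k ≤ 1 / 2)
    (hb : ∀ k, 0 ≤ b k ∧ b k ≤ 1 / 2) (K : ℕ)
    (ha0 : ∀ k, K ≤ k → a k ≠ 0) (hah : ∀ k, K ≤ k → a k ≠ 1 / 2)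
    (hb0 : ∀ k, K ≤ k → b k ≠ 0) (hbh : ∀ k, K ≤ k → b k ≠ 1 / 2) :
    ∃ L p : ℕ, 0 < p ∧ K ≤ L ∧ a (L + p) = a L ∧ b (L + p) = b L := by
  obtain ⟨K', p, hp, -, h3, h4⟩ := (h.shift K).periodic_half hm
    (fun k => ⟨lt_of_le_of_ne (ha (K + k)).1 (Ne.symm (ha0 _ (by omega))),
      lt_of_le_of_ne (ha (K + k)).2 (hah _ (by omega))⟩)
    (fun k => ⟨lt_of_le_of_ne (hb (K + k)).1 (Ne.symm (hb0 _ (by omega))),
      lt_of_le_of_ne (hb (K + k)).2 (hbh _ (by omega))⟩)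
  have h3 : a (K + (K' + p)) = a (K + K') := h3
  have h4 : b (K + (K' + p)) = b (K + K') := h4
  rw [← add_assoc] at h3 h4
  exact ⟨K + K', p, hp, by omega, h3, h4⟩

/-- Lemma C: the first coordinate of a closed orbit never is `1/2`. -/
theorem Orb.a_ne_half₀ (h : Orb m a b s t c) (hm : 2 ≤ |m|) (ha : ∀ k, 0 ≤ a k ∧ a k ≤ 1 / 2)
    (hb : ∀ k, 0 ≤ b k ∧ b k ≤ 1 / 2) : a 0 ≠ 1 / 2 := by
  intro h0
  have hm0 : m ≠ 0 := by rintro rfl; simp at hm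
  have A0 : ∀ k, a k ≠ 0 := odd_ne_zero a s h.sa h0
  have Ah : ∀ k, 0 < k → a k ≠ 1 / 2 := odd_ne_half a s h.sa h0
  have fin : ∀ K, 0 < K → (∀ k, K ≤ k → b k ≠ 0) → (∀ k, K ≤ k → b k ≠ 1 / 2) → False := by
    intro K hK h1 h2
    obtain ⟨L, p, hp, -, h3, -⟩ :=
      h.half_tail hm ha hb K (fun k _ => A0 k) (fun k hk => Ah k (by omega)) h1 h2
    exact odd_inj a s h.sa h0 _ p hp h3
  by_cases hb' : ∃ j, b j = 1 / 2
  · obtain ⟨j, hj⟩ := hb'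
    have hx : ∀ k, 2 * b (j + (k + 1)) = 3 * b (j + k) - t (j + k) := fun k => h.sb (j + k)
    refine fin (j + 1) (by omega) ?_ ?_
    · intro k hk
      have := odd_ne_zero (fun k => b (j + k)) (fun k => t (j + k)) hx hj (k - j)
      rwa [show j + (k - j) = k by omega] at this
    · intro k hk
      have := odd_ne_half (fun k => b (j + k)) (fun k => t (j + k)) hx hj (k - j) (by omega)
      rwa [show j + (k - j) = k by omega] at this
  · push Not at hb'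
    by_cases hz : ∃ j, b j = 0
    · obtain ⟨j, hj⟩ := hz
      have := stays_zero b t h.sb hb j (fun k _ => hb' k) hj
      refine odd_not_int a s h.sa h0 m hm0 j (fun k hk => ⟨c k, ?_⟩)
      have h1 := h.hc k
      rw [this k hk, sub_zero] at h1
      exact h1
    · push Not at hz
      exact fin 1 (by omega) (fun k _ => hz k) (fun k _ => hb' k)

theorem Orb.a_ne_half (h : Orb m a b s t c) (hm : 2 ≤ |m|) (ha : ∀ k, 0 ≤ a k ∧ a k ≤ 1 / 2)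
    (hb : ∀ k, 0 ≤ b k ∧ b k ≤ 1 / 2) (k : ℕ) : a k ≠ 1 / 2 := by
  have := (h.shift k).a_ne_half₀ hm (fun j => ha _) (fun j => hb _)
  simpa using this

/-- Lemma D: the second coordinate of a closed orbit never is `1/2`. -/
theorem Orb.b_ne_half₀ (h : Orb m a b s t c) (hm : 2 ≤ |m|) (ha : ∀ k, 0 ≤ a k ∧ a k ≤ 1 / 2)
    (hb : ∀ k, 0 ≤ b k ∧ b k ≤ 1 / 2) : b 0 ≠ 1 / 2 := by
  intro h0
  have B0 : ∀ k, b k ≠ 0 := odd_ne_zero b t h.sb h0
  have Bh : ∀ k, 0 < k → b k ≠ 1 / 2 := odd_ne_half b t h.sb h0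
  have Ah := h.a_ne_half hm ha hb
  by_cases hz : ∃ j, a j = 0
  · obtain ⟨j, hj⟩ := hz
    have := stays_zero a s h.sa ha j (fun k _ => Ah k) hj
    refine odd_not_int b t h.sb h0 1 one_ne_zero j (fun k hk => ⟨-c k, ?_⟩)
    have h1 := h.hc k
    rw [this k hk, mul_zero] at h1
    push_cast
    linarith
  · push Not at hz
    obtain ⟨L, p, hp, -, -, h3⟩ := h.half_tail hm ha hb 1 (fun k _ => hz k) (fun k _ => Ah k)
      (fun k _ => B0 k) (fun k hk => Bh k (by omega))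
    exact odd_inj b t h.sb h0 _ p hp h3

/-- Lemma C for a window: the first coordinate never is `1/2`. -/
theorem Orb.window_ne_half₀ (h : Orb m a b s t c) (hm : 2 ≤ m) (ha : ∀ k, 0 ≤ a k ∧ a k ≤ 1 / 2)
    (y : ℝ) (h1 : 0 < y) (h2 : y < 1 / 2) (hb : ∀ k, y ≤ b k ∧ b k ≤ y + 1 / 2) :
    a 0 ≠ 1 / 2 := by
  intro h0
  have A0 : ∀ k, a k ≠ 0 := odd_ne_zero a s h.sa h0
  have Ah : ∀ k, 0 < k → a k ≠ 1 / 2 := odd_ne_half a s h.sa h0
  obtain ⟨K', p, hp, -, h3, -⟩ := (h.shift 1).periodic_window hm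
    (fun k => ⟨lt_of_le_of_ne (ha (1 + k)).1 (Ne.symm (A0 _)),
      lt_of_le_of_ne (ha (1 + k)).2 (Ah _ (by omega))⟩) y 0 le_rfl (by linarith) (by linarith)
    (fun k => ⟨by linarith [(hb (1 + k)).1], by linarith [(hb (1 + k)).2]⟩)
  have h3 : a (1 + (K' + p)) = a (1 + K') := h3
  rw [← add_assoc] at h3
  exact odd_inj a s h.sa h0 _ p hp h3

end Pool.Agent.Helper57.ZM
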