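import Mathlib

set_option autoImplicit false
open Filter Topology

namespace Pool.Agent.Helper57.ZM

/-- A pair of orbits of the multivalued map `x ↦ 3x/2 mod 1/2`, linked by `m a - b ∈ ℤ`. -/
structure Orb (m : ℤ) (a b : ℕ → ℝ) (s t c : ℕ → ℤ) : Prop where
  sa : ∀ k, 2 * a (k + 1) = 3 * a k - s k
  sb : ∀ k, 2 * b (k + 1) = 3 * b k - t k
  hc : ∀ k, (m : ℝ) * a k - b k = c k

variable {m : ℤ} {a b : ℕ → ℝ} {s t c : ℕ → ℤ}

theorem Orb.shift (h : Orb m a b s t c) (j : ℕ) :
    Orb m (fun k => a (j + k)) (fun k => b (j + k)) (fun k => s (j + k)) (fun k => t (j + k))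
      (fun k => c (j + k)) where
  sa k := h.sa _
  sb k := h.sb _
  hc k := h.hc _

theorem Orb.step (h : Orb m a b s t c) (k : ℕ) : 2 * c (k + 1) = 3 * c k - m * s k + t k := by
  have h1 := h.hc k
  have h2 := h.hc (k + 1)
  have h3 := h.sa k
  have h4 := h.sb k
  have : (2 * (c (k + 1) : ℝ)) = 3 * c k - m * s k + t k := by
    rw [← h1, ← h2]
    linear_combination (m : ℝ) * h3 - h4
  exact_mod_cast this

/-- digits of an orbit in the open half are `0` or `1` -/
theorem digit01 (x : ℕ → ℝ) (z : ℕ → ℤ) (hx : ∀ k, 2 * x (k + 1) = 3 * x k - z k) (u : ℝ)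
    (hu : 0 ≤ u) (hu' : u ≤ 1 / 2) (h : ∀ k, u < x k ∧ x k < u + 1 / 2) (k : ℕ) :
    z k = 0 ∨ z k = 1 := by
  have h1 := h k
  have h2 := h (k + 1)
  have h3 := hx k
  have h4 : (-1 : ℝ) < z k := by linarith [h1.1, h2.2]
  have h5 : (z k : ℝ) < 2 := by linarith [h1.2, h2.1]
  have h6 : (-1 : ℤ) < z k := by exact_mod_cast h4
  have h7 : z k < 2 := by exact_mod_cast h5
  omega

/-- bounded solutions of `2 d (j+1) = 3 d j` vanish -/
theorem zero_of_bdd (d : ℕ → ℝ) (hd : ∀ j, 2 * d (j + 1) = 3 * d j) (hb : ∀ j, |d j| ≤ 1) :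
    d 0 = 0 := by
  by_contra h0
  have key : ∀ j, d j = (3 / 2) ^ j * d 0 := by
    intro j
    induction j with
    | zero => simp
    | succ j ih =>
      rw [pow_succ, show d (j + 1) = 3 / 2 * d j by linarith [hd j], ih]
      ring
  have hpos : 0 < |d 0| := abs_pos.mpr h0
  obtain ⟨j, hj⟩ := pow_unbounded_of_one_lt (1 / |d 0|) (by norm_num : (1 : ℝ) < 3 / 2)
  have h1 := hb j
  rw [key j, abs_mul, abs_of_pos (by positivity : (0 : ℝ) < (3 / 2) ^ j)] at h1
  rw [div_lt_iff₀ hpos] at hj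
  linarith

theorem Orb.periodic_of (h : Orb m a b s t c) (ha : ∀ k, 0 ≤ a k ∧ a k ≤ 1)
    (hb : ∀ k, 0 ≤ b k ∧ b k ≤ 1) (M : ℤ) (hr : ∀ k, c k ∈ Set.Icc (-M) M)
    (hdet : ∀ k l, c k = c l → s k = s l ∧ t k = t l) :
    ∃ K p : ℕ, 0 < p ∧ (∀ j, s (K + p + j) = s (K + j)) ∧ a (K + p) = a K ∧ b (K + p) = b K := by
  haveI : Finite (Set.Icc (-M) M) := Set.finite_Icc _ _
  obtain ⟨x, y, hxy, hc⟩ := Finite.exists_ne_map_eq_of_infinite
    (fun k : ℕ => (⟨c k, hr k⟩ : Set.Icc (-M) M))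
  have hc : c x = c y := by simpa using hc
  have main : ∀ K p : ℕ, 0 < p → c (K + p) = c K →
      ∃ K p : ℕ, 0 < p ∧ (∀ j, s (K + p + j) = s (K + j)) ∧ a (K + p) = a K ∧ b (K + p) = b K := by
    intro K p hp hcK
    have hcj : ∀ j, c (K + p + j) = c (K + j) := by
      intro j
      induction j with
      | zero => simpa using hcK
      | succ j ih =>
        have r1 := h.step (K + p + j)
        have r2 := h.step (K + j)
        obtain ⟨d1, d2⟩ := hdet _ _ ih
        rw [ih, d1, d2] at r1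
        rw [← add_assoc, ← add_assoc]
        omega
    have hs : ∀ j, s (K + p + j) = s (K + j) := fun j => (hdet _ _ (hcj j)).1
    have ht : ∀ j, t (K + p + j) = t (K + j) := fun j => (hdet _ _ (hcj j)).2
    refine ⟨K, p, hp, hs, ?_, ?_⟩
    · have := zero_of_bdd (fun j => a (K + p + j) - a (K + j)) (fun j => by
        have h1 := h.sa (K + p + j)
        have h2 := h.sa (K + j)
        rw [hs j] at h1
        simp only [← add_assoc]
        linarith) (fun j => by
        have h1 := ha (K + p + j)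
        have h2 := ha (K + j)
        rw [abs_le]
        constructor <;> linarith [h1.1, h1.2, h2.1, h2.2])
      simp only [add_zero] at this
      linarith
    · have := zero_of_bdd (fun j => b (K + p + j) - b (K + j)) (fun j => by
        have h1 := h.sb (K + p + j)
        have h2 := h.sb (K + j)
        rw [ht j] at h1
        simp only [← add_assoc]
        linarith) (fun j => by
        have h1 := hb (K + p + j)
        have h2 := hb (K + j)
        rw [abs_le]
        constructor <;> linarith [h1.1, h1.2, h2.1, h2.2])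
      simp only [add_zero] at this
      linarith
  rcases lt_or_gt_of_ne hxy with h1 | h1
  · exact main x (y - x) (by omega) (by rw [show x + (y - x) = y by omega]; exact hc.symm)
  · exact main y (x - y) (by omega) (by rw [show y + (x - y) = x by omega]; exact hc)

/-- positive multiplier: `c ≠ 0` -/
theorem Orb.c_ne (h : Orb m a b s t c) (hm : 2 ≤ m) (ha : ∀ k, 0 < a k ∧ a k < 1 / 2)
    (hs : ∀ k, s k = 0 ∨ s k = 1) (ht : ∀ k, t k = 0 ∨ t k = 1)
    (hr : ∀ k, 0 ≤ c k ∧ 2 * c k < m) (k : ℕ) : c k ≠ 0 := by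
  intro h0
  have key : ∀ j, c (k + j) = 0 ∧ a (k + j) = (3 / 2) ^ j * a k := by
    intro j
    induction j with
    | zero => simp [h0]
    | succ j ih =>
      obtain ⟨i1, i2⟩ := ih
      have h10 := h.step (k + j)
      have h11 := hr (k + j + 1)
      rw [i1] at h10
      have h9 : s (k + j) = 0 := by
        rcases hs (k + j) with h | h
        · exact h
        · exfalso
          rw [h] at h10
          rcases ht (k + j) with h' | h' <;> rw [h'] at h10 <;> omega
      rw [h9] at h10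
      have h12 : t (k + j) = 0 := by
        rcases ht (k + j) with h | h
        · exact h
        · omega
      rw [h12] at h10
      refine ⟨by rw [← add_assoc]; omega, ?_⟩
      have h6 := h.sa (k + j)
      rw [h9] at h6
      rw [← add_assoc, pow_succ]
      push_cast at h6
      rw [show a (k + j + 1) = 3 / 2 * a (k + j) by linarith, i2]
      ring
  have hpos : 0 < a k := (ha k).1
  obtain ⟨j, hj⟩ := pow_unbounded_of_one_lt (1 / a k) (by norm_num : (1 : ℝ) < 3 / 2)
  have h1 := (key j).2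
  have h2 := (ha (k + j)).2
  rw [h1] at h2
  rw [div_lt_iff₀ hpos] at hj
  linarith

/-- positive multiplier: orbits are eventually periodic -/
theorem Orb.periodic_pos (h : Orb m a b s t c) (hm : 2 ≤ m) (ha : ∀ k, 0 < a k ∧ a k < 1 / 2)
    (hb : ∀ k, 0 ≤ b k ∧ b k ≤ 1) (ht : ∀ k, t k = 0 ∨ t k = 1)
    (hr : ∀ k, 0 ≤ c k ∧ 2 * c k < m) :
    ∃ K p : ℕ, 0 < p ∧ (∀ j, s (K + p + j) = s (K + j)) ∧ a (K + p) = a K ∧ b (K + p) = b K := by
  have hs := digit01 a s h.sa 0 le_rfl (by norm_num) (fun k => ⟨(ha k).1, by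
    rw [zero_add]; exact (ha k).2⟩)
  refine h.periodic_of (fun k => ⟨(ha k).1.le, by linarith [(ha k).2]⟩) hb m
    (fun k => ⟨by linarith [(hr k).1], by linarith [(hr k).1, (hr k).2]⟩) ?_
  intro k l hkl
  have r1 := h.step k
  have r2 := h.step l
  have n1 := h.c_ne hm ha hs ht hr (k + 1)
  have n2 := h.c_ne hm ha hs ht hr (l + 1)
  have p1 := hr (k + 1)
  have p2 := hr (l + 1)
  rcases hs k with e1 | e1 <;> rcases hs l with e2 | e2 <;>
    rcases ht k with e3 | e3 <;> rcases ht l with e4 | e4 <;>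
    rw [e1, e3] at r1 <;> rw [e2, e4] at r2 <;> rw [e1, e2, e3, e4] <;> omega

/-- negative multiplier: orbits in the open half are eventually periodic -/
theorem Orb.periodic_neg (h : Orb m a b s t c) (hm : m ≤ -2) (ha : ∀ k, 0 < a k ∧ a k < 1 / 2)
    (hb : ∀ k, 0 < b k ∧ b k < 1 / 2) :
    ∃ K p : ℕ, 0 < p ∧ (∀ j, s (K + p + j) = s (K + j)) ∧ a (K + p) = a K ∧ b (K + p) = b K := by
  have hs := digit01 a s h.sa 0 le_rfl (by norm_num) (fun k => ⟨(ha k).1, by
    rw [zero_add]; exact (ha k).2⟩)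
  have ht := digit01 b t h.sb 0 le_rfl (by norm_num) (fun k => ⟨(hb k).1, by
    rw [zero_add]; exact (hb k).2⟩)
  have hr : ∀ k, c k ≤ -1 ∧ m ≤ 2 * c k := by
    intro k
    have h1 := ha k
    have h2 := hb k
    have h3 := h.hc k
    have hm' : (m : ℝ) ≤ -2 := by exact_mod_cast hm
    have h4 : (c k : ℝ) < 0 := by nlinarith [h1.1, h2.1]
    have h5 : (m : ℝ) - 1 < 2 * (c k : ℝ) := by nlinarith [h1.2, h2.2]
    have h6 : c k < 0 := by exact_mod_cast h4
    have h7 : m - 1 < 2 * c k := by exact_mod_cast h5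
    omega
  refine h.periodic_of (fun k => ⟨(ha k).1.le, by linarith [(ha k).2]⟩)
    (fun k => ⟨(hb k).1.le, by linarith [(hb k).2]⟩) (-m)
    (fun k => ⟨by have := hr k; omega, by have := hr k; omega⟩) ?_
  intro k l hkl
  have r1 := h.step k
  have r2 := h.step l
  have p1 := hr (k + 1)
  have p2 := hr (l + 1)
  rcases hs k with e1 | e1 <;> rcases hs l with e2 | e2 <;>
    rcases ht k with e3 | e3 <;> rcases ht l with e4 | e4 <;>
    rw [e1, e3] at r1 <;> rw [e2, e4] at r2 <;> rw [e1, e2, e3, e4] <;> omega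

/-- both coordinates in the open half -/
theorem Orb.periodic_half (h : Orb m a b s t c) (hm : 2 ≤ |m|) (ha : ∀ k, 0 < a k ∧ a k < 1 / 2)
    (hb : ∀ k, 0 < b k ∧ b k < 1 / 2) :
    ∃ K p : ℕ, 0 < p ∧ (∀ j, s (K + p + j) = s (K + j)) ∧ a (K + p) = a K ∧ b (K + p) = b K := by
  rcases le_abs.mp hm with hm | hm
  · have ht := digit01 b t h.sb 0 le_rfl (by norm_num) (fun k => ⟨(hb k).1, by
      rw [zero_add]; exact (hb k).2⟩)
    refine h.periodic_pos hm ha (fun k => ⟨(hb k).1.le, by linarith [(hb k).2]⟩) ht ?_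
    intro k
    have h1 := ha k
    have h2 := hb k
    have h3 := h.hc k
    have hm' : (2 : ℝ) ≤ m := by exact_mod_cast hm
    have h4 : (-1 : ℝ) < c k := by nlinarith [h1.1, h2.2]
    have h5 : (2 * (c k : ℝ)) < m := by nlinarith [h1.2, h2.1]
    have h6 : (-1 : ℤ) < c k := by exact_mod_cast h4
    have h7 : 2 * c k < m := by exact_mod_cast h5
    omega
  · exact h.periodic_neg (by omega) ha hb

/-- first coordinate in the open half, second one in an interval around `[y, y + 1/2]`, `0 < y < 1/2` -/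
theorem Orb.periodic_window (h : Orb m a b s t c) (hm : 2 ≤ m)
    (ha : ∀ k, 0 < a k ∧ a k < 1 / 2) (y e : ℝ) (he : 0 ≤ e) (h1 : 5 * e < y)
    (h2 : y + 5 * e < 1 / 2) (hb : ∀ k, y - e ≤ b k ∧ b k ≤ y + 1 / 2 + e) :
    ∃ K p : ℕ, 0 < p ∧ (∀ j, s (K + p + j) = s (K + j)) ∧ a (K + p) = a K ∧ b (K + p) = b K := by
  have ht : ∀ k, t k = 0 ∨ t k = 1 := by
    intro k
    have g1 := hb k
    have g2 := hb (k + 1)
    have g3 := h.sb k
    have h4 : (-1 : ℝ) < t k := by linarith [g1.1, g2.2]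
    have h5 : (t k : ℝ) < 2 := by linarith [g1.2, g2.1]
    have h6 : (-1 : ℤ) < t k := by exact_mod_cast h4
    have h7 : t k < 2 := by exact_mod_cast h5
    omega
  refine h.periodic_pos hm ha (fun k => ⟨by linarith [(hb k).1], by linarith [(hb k).2]⟩) ht ?_
  intro k
  have g1 := ha k
  have g2 := hb k
  have g3 := h.hc k
  have hm' : (2 : ℝ) ≤ m := by exact_mod_cast hm
  have h4 : (-1 : ℝ) < c k := by nlinarith [g1.1, g2.2]
  have h5 : (2 * (c k : ℝ)) < m := by nlinarith [g1.2, g2.1]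
  have h6 : (-1 : ℤ) < c k := by exact_mod_cast h4
  have h7 : 2 * c k < m := by exact_mod_cast h5
  omega

end Pool.Agent.Helper57.ZM
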