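import Pool.Agent.Helper57.ZM.Uniform

set_option autoImplicit false
open Filter Topology

namespace Pool.Agent.Helper57.ZM

variable {m : ℤ} {L : ℝ} {a b : ℕ → ℝ} {s t c : ℕ → ℤ}

theorem Dl.shift (h : Dl m L a b s t c) (j : ℕ) :
    Dl m L (fun k => a (j + k)) (fun k => b (j + k)) (fun k => s (j + k)) (fun k => t (j + k))
      (fun k => c (j + k)) :=
  { toOrb := h.toOrb.shift j
    ha := fun k => h.ha _
    hb := fun k => h.hb _
    da := fun i j => h.da _ _
    db := fun i j => h.db _ _ }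

theorem Dl.near (h : Dl 11 L a b s t c) (hL : L ≤ 4 / 9) (i j : ℕ) : c i - c j ≤ 5 := by
  have h1 := h.hc i
  have h2 := h.hc j
  have h3 := h.da i j
  have h4 := h.db j i
  have h5 : ((c i : ℝ) - c j) < 6 := by
    push_cast at h1 h2
    linarith
  have h6 : c i - c j < 6 := by exact_mod_cast h5
  omega

/-- the possible branchings for `m = 11` -/
theorem Dl.branch (h : Dl 11 L a b s t c) (hL : L ≤ 1 / 2) (i j : ℕ) (hc : c i = c j)
    (hi : s i = 0) (hj : s j = 1) :
    (c (i + 1) = 6 ∧ c (j + 1) = 1) ∨ (c (i + 1) = 8 ∧ c (j + 1) = 2) ∨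
      (c (i + 1) = 9 ∧ c (j + 1) = 4) := by
  have t1 := dl_digit b t h.sb hL h.hb h.db i
  have t2 := dl_digit b t h.sb hL h.hb h.db j
  have s1 := h.step i
  have s2 := h.step j
  have r1 := h.range (by norm_num) (i + 1)
  have r2 := h.range (by norm_num) (j + 1)
  rw [hi] at s1
  rw [hj, ← hc] at s2
  generalize c i = u at *
  generalize c (i + 1) = v at *
  generalize c (j + 1) = w at *
  generalize t i = p at *
  generalize t j = q at *
  clear h hc hi hj
  rcases t1 with rfl | rfl <;> rcases t2 with rfl | rfl <;> omega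

theorem Dl.det_of (h : Dl 11 L a b s t c) (hL : L ≤ 1 / 2)
    (hno : ∀ i j, ¬ ((c (i + 1) = 6 ∧ c (j + 1) = 1) ∨ (c (i + 1) = 8 ∧ c (j + 1) = 2) ∨
      (c (i + 1) = 9 ∧ c (j + 1) = 4)) ∨ c i ≠ c j) : EP s := by
  have hs := dl_digit a s h.sa hL h.ha h.da
  have ht := dl_digit b t h.sb hL h.hb h.db
  refine EP_of_det h (by norm_num) fun k l hkl => ?_
  have aux : ∀ i j, c i = c j → s i = 0 → s j = 1 → False := by
    intro i j hij hi hj
    rcases hno i j with h1 | h1
    · exact h1 (h.branch hL i j hij hi hj)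
    · exact h1 hij
  have h1 : s k = s l := by
    rcases hs k with e1 | e1 <;> rcases hs l with e2 | e2
    · rw [e1, e2]
    · exact (aux k l hkl e1 e2).elim
    · exact (aux l k hkl.symm e2 e1).elim
    · rw [e1, e2]
  refine ⟨h1, ?_⟩
  have s1 := h.step k
  have s2 := h.step l
  rw [hkl, h1] at s1
  rcases ht k with e1 | e1 <;> rcases ht l with e2 | e2 <;> rw [e1, e2] <;> exfalso <;>
    rw [e1] at s1 <;> rw [e2] at s2 <;> omega

theorem Dl.eleven (h : Dl 11 L a b s t c) (hL : L ≤ 4 / 9) : EP s := by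
  have hL2 : L ≤ 1 / 2 := by linarith
  have hs := dl_digit a s h.sa hL2 h.ha h.da
  have ht := dl_digit b t h.sb hL2 h.hb h.db
  have hN := h.near hL
  by_cases h1 : ∃ l, c l = 1
  · obtain ⟨l, hl⟩ := h1
    have inv : ∀ k, c (l + k) = 1 ∨ c (l + k) = 2 ∨ c (l + k) = 3 ∨ c (l + k) = 5 := by
      intro k
      induction k with
      | zero => left; exact hl
      | succ k ih =>
        have e1 := h.step (l + k)
        have e2 := hN (l + k + 1) l
        have e3 := h.range (by norm_num) (l + k + 1)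
        have e4 := hs (l + k)
        have e5 := ht (l + k)
        rw [← add_assoc]
        rw [hl] at e2
        generalize c (l + k) = u at *
        generalize c (l + k + 1) = v at *
        generalize s (l + k) = p at *
        generalize t (l + k) = q at *
        clear hN hs ht h
        rcases e4 with rfl | rfl <;> rcases e5 with rfl | rfl <;> omega
    refine EP_shift l ((h.shift l).det_of hL2 fun i j => ?_)
    left
    have i2 := inv (i + 1)
    have j2 := inv (j + 1)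
    rintro (h2 | h2 | h2)
    · have := h2.1; omega
    · have := h2.1; omega
    · have := h2.1; omega
  by_cases h9 : ∃ l, c l = 9
  · obtain ⟨l, hl⟩ := h9
    have inv : ∀ k, c (l + k) = 9 ∨ c (l + k) = 8 ∨ c (l + k) = 7 ∨ c (l + k) = 5 := by
      intro k
      induction k with
      | zero => left; exact hl
      | succ k ih =>
        have e1 := h.step (l + k)
        have e2 := hN l (l + k + 1)
        have e3 := h.range (by norm_num) (l + k + 1)
        have e4 := hs (l + k)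
        have e5 := ht (l + k)
        rw [← add_assoc]
        rw [hl] at e2
        generalize c (l + k) = u at *
        generalize c (l + k + 1) = v at *
        generalize s (l + k) = p at *
        generalize t (l + k) = q at *
        clear hN hs ht h
        rcases e4 with rfl | rfl <;> rcases e5 with rfl | rfl <;> omega
    refine EP_shift l ((h.shift l).det_of hL2 fun i j => ?_)
    left
    have i2 := inv (i + 1)
    have j2 := inv (j + 1)
    rintro (h2 | h2 | h2)
    · have := h2.2; omega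
    · have := h2.2; omega
    · have := h2.2; omega
  push Not at h1 h9
  refine h.det_of hL2 fun i j => ?_
  left
  rintro (h2 | h2 | h2)
  · exact h1 _ h2.2
  · have := hN (i + 1) (j + 1)
    omega
  · exact h9 _ h2.1

/-- all multipliers, differences below `L` -/
theorem Dl.all (h : Dl m L a b s t c) (hm : 8 ≤ m) (h9 : m ≠ 9)
    (hL : L ≤ 4 / 9 ∨ (L ≤ 1 / 2 ∧ L * (2 * m + 3) ≤ m)) : EP s := by
  rcases hL with hL | ⟨hL, hLm⟩
  · by_cases h11 : m = 11
    · subst h11
      exact h.eleven hL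
    · have hLm : L * (2 * m + 3) ≤ m ∨ (Even m ∧ L * (2 * m + 2) ≤ m) := by
        rcases Int.even_or_odd m with he | ho
        · right
          refine ⟨he, ?_⟩
          have hm' : (8 : ℝ) ≤ m := by exact_mod_cast hm
          nlinarith
        · left
          obtain ⟨r, hr⟩ := ho
          have : (13 : ℤ) ≤ m := by omega
          have hm' : (13 : ℝ) ≤ m := by exact_mod_cast this
          nlinarith
      exact h.ep (by omega) (by linarith) hLm
  · exact h.ep (by omega) hL (Or.inl hLm)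

/-- small ranges of both sequences -/
theorem two_ranges (ξ : ℝ) (hξ : ξ ≠ 0) (m : ℤ) (hm : 8 ≤ m) (h9 : m ≠ 9) (L : ℝ)
    (hL : L ≤ 4 / 9 ∨ (L ≤ 1 / 2 ∧ L * (2 * m + 3) ≤ m)) (x y M : ℝ) (hM : M < L)
    (hA : ∀ z, MapClusterPt z atTop (fr ξ) → x ≤ z ∧ z ≤ x + M)
    (hB : ∀ z, MapClusterPt z atTop (fr (m * ξ)) → y ≤ z ∧ z ≤ y + M) : False := by
  obtain ⟨e, he⟩ : ∃ e, e = (L - M) / 3 := ⟨_, rfl⟩
  have he0 : 0 < e := by rw [he]; linarith
  have a1 := ev_lt_of_cluster ξ (x + M) (x + M + e) (by linarith) (fun z hz => (hA z hz).2)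
  have a2 := ev_gt_of_cluster ξ x (x - e) (by linarith) (fun z hz => (hA z hz).1)
  have a3 := ev_lt_of_cluster (m * ξ) (y + M) (y + M + e) (by linarith) (fun z hz => (hB z hz).2)
  have a4 := ev_gt_of_cluster (m * ξ) y (y - e) (by linarith) (fun z hz => (hB z hz).1)
  obtain ⟨N, hN⟩ := eventually_atTop.mp ((a1.and a2).and (a3.and a4))
  have hd : Dl m L (fun k => fr ξ (N + k)) (fun k => fr (m * ξ) (N + k))
      (fun k => 2 * ⌊ξ * (3 / 2) ^ (N + k + 1)⌋ - 3 * ⌊ξ * (3 / 2) ^ (N + k)⌋)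
      (fun k => 2 * ⌊(m : ℝ) * ξ * (3 / 2) ^ (N + k + 1)⌋ - 3 * ⌊(m : ℝ) * ξ * (3 / 2) ^ (N + k)⌋)
      (fun k => ⌊(m : ℝ) * ξ * (3 / 2) ^ (N + k)⌋ - m * ⌊ξ * (3 / 2) ^ (N + k)⌋) :=
    { toOrb := orb_actual ξ m N
      ha := fun k => ⟨fr_nonneg _ _, fr_lt_one _ _⟩
      hb := fun k => ⟨fr_nonneg _ _, fr_lt_one _ _⟩
      da := fun i j => by
        have h1 := hN (N + i) (by omega)
        have h2 := hN (N + j) (by omega)
        linarith [h1.1.1, h2.1.2]
      db := fun i j => by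
        have h1 := hN (N + i) (by omega)
        have h2 := hN (N + j) (by omega)
        linarith [h1.2.1, h2.2.2] }
  exact not_EP ξ hξ N (hd.all hm h9 hL)

/-- no two accumulation points at distance `≥ L` : all of them in a shorter interval -/
theorem short_of_not_far (ξ L : ℝ)
    (h : ¬ ∃ y z, MapClusterPt y atTop (fr ξ) ∧ MapClusterPt z atTop (fr ξ) ∧ L ≤ z - y) :
    ∃ x M, M < L ∧ ∀ z, MapClusterPt z atTop (fr ξ) → x ≤ z ∧ z ≤ x + M := by
  have hcl : IsClosed {z | MapClusterPt z atTop (fr ξ)} := isClosed_setOf_clusterPt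
  have hne : {z | MapClusterPt z atTop (fr ξ)}.Nonempty := cluster_nonempty ξ
  have hbd : BddBelow {z | MapClusterPt z atTop (fr ξ)} := ⟨0, fun z hz => (cluster_mem ξ z hz).1⟩
  have hbd' : BddAbove {z | MapClusterPt z atTop (fr ξ)} := ⟨1, fun z hz => (cluster_mem ξ z hz).2⟩
  have h1 := hcl.csInf_mem hne hbd
  have h2 := hcl.csSup_mem hne hbd'
  set x := sInf {z | MapClusterPt z atTop (fr ξ)}
  set w := sSup {z | MapClusterPt z atTop (fr ξ)}
  refine ⟨x, w - x, ?_, fun z hz => ⟨csInf_le hbd hz, ?_⟩⟩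
  · by_contra hcon
    exact h ⟨x, w, h1, h2, not_lt.mp hcon⟩
  · have := le_csSup hbd' hz
    linarith

theorem uniform_big (ξ : ℝ) (hξ : ξ ≠ 0) (m : ℤ) (hm : 8 ≤ m) (h9 : m ≠ 9) (L : ℝ)
    (hL : L ≤ 4 / 9 ∨ (L ≤ 1 / 2 ∧ L * (2 * m + 3) ≤ m)) :
    (∃ y z, MapClusterPt y atTop (fr ξ) ∧ MapClusterPt z atTop (fr ξ) ∧ L ≤ z - y) ∨
    ∃ y z, MapClusterPt y atTop (fr (m * ξ)) ∧ MapClusterPt z atTop (fr (m * ξ)) ∧ L ≤ z - y := by
  by_contra hcon
  rw [not_or] at hcon
  obtain ⟨h1, h2⟩ := hcon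
  obtain ⟨x, M1, hM1, hx⟩ := short_of_not_far ξ L h1
  obtain ⟨y, M2, hM2, hy⟩ := short_of_not_far (m * ξ) L h2
  exact two_ranges ξ hξ m hm h9 L hL x y (max M1 M2) (max_lt hM1 hM2)
    (fun z hz => ⟨(hx z hz).1, by linarith [(hx z hz).2, le_max_left M1 M2]⟩)
    (fun z hz => ⟨(hy z hz).1, by linarith [(hy z hz).2, le_max_right M1 M2]⟩)

/-- the uniform statement -/
theorem uniform (ξ : ℝ) (hξ : ξ ≠ 0) (m : ℤ) (hm : 2 ≤ m) :
    (∃ y z, MapClusterPt y atTop (fr ξ) ∧ MapClusterPt z atTop (fr ξ) ∧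
      max (4 / 9) ((m : ℝ) / (2 * m + 3)) ≤ z - y) ∨
    ∃ y z, MapClusterPt y atTop (fr (m * ξ)) ∧ MapClusterPt z atTop (fr (m * ξ)) ∧
      max (4 / 9) ((m : ℝ) / (2 * m + 3)) ≤ z - y := by
  have hm0 : (2 : ℝ) ≤ m := by exact_mod_cast hm
  have hle : max (4 / 9) ((m : ℝ) / (2 * m + 3)) ≤ 1 / 2 := by
    apply max_le (by norm_num)
    rw [div_le_div_iff₀ (by linarith) (by norm_num)]
    linarith
  rcases lt_or_ge m 8 with h8 | h8
  · rcases range_main ξ hξ m hm (by omega) with ⟨y, z, h1, h2, h3⟩ | ⟨y, z, h1, h2, h3⟩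
    · exact Or.inl ⟨y, z, h1, h2, by linarith⟩
    · exact Or.inr ⟨y, z, h1, h2, by linarith⟩
  by_cases h9 : m = 9
  · rcases range_main ξ hξ 4 (by norm_num) (by norm_num) with ⟨y, z, h1, h2, h3⟩ | ⟨y, z, h1, h2, h3⟩
    · exact Or.inl ⟨y, z, h1, h2, by linarith⟩
    · refine Or.inr ⟨y, z, ?_, ?_, by linarith⟩
      · rw [h9, show ((9 : ℤ) : ℝ) * ξ = ((4 : ℤ) : ℝ) * ξ * (3 / 2) * (3 / 2) by push_cast; ring]
        exact cluster_shift' _ _ (cluster_shift' _ _ h1)
      · rw [h9, show ((9 : ℤ) : ℝ) * ξ = ((4 : ℤ) : ℝ) * ξ * (3 / 2) * (3 / 2) by push_cast; ring]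
        exact cluster_shift' _ _ (cluster_shift' _ _ h2)
  refine uniform_big ξ hξ m h8 h9 _ ?_
  rcases le_total (4 / 9) ((m : ℝ) / (2 * m + 3)) with h | h
  · right
    refine ⟨hle, ?_⟩
    rw [max_eq_right h, div_mul_cancel₀ _ (by linarith)]
  · left
    rw [max_eq_left h]

end Pool.Agent.Helper57.ZM
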