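import Pool.Agent.Helper57.ZM.Closed

set_option autoImplicit false
open Filter Topology

namespace Pool.Agent.Helper57.ZM

noncomputable def fr (ξ : ℝ) (n : ℕ) : ℝ := Int.fract (ξ * (3 / 2) ^ n)

theorem fr_nonneg (ξ : ℝ) (n : ℕ) : 0 ≤ fr ξ n := Int.fract_nonneg _
theorem fr_lt_one (ξ : ℝ) (n : ℕ) : fr ξ n < 1 := Int.fract_lt_one _

theorem fr_step (ξ : ℝ) (n : ℕ) : 3 * fr ξ n - 2 * fr ξ (n + 1) =
    ((2 * ⌊ξ * (3 / 2) ^ (n + 1)⌋ - 3 * ⌊ξ * (3 / 2) ^ n⌋ : ℤ) : ℝ) := by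
  unfold fr
  rw [Int.fract, Int.fract]
  push_cast
  rw [pow_succ]
  ring

theorem fr_mul (ξ : ℝ) (m : ℤ) (n : ℕ) : (m : ℝ) * fr ξ n - fr (m * ξ) n =
    ((⌊(m : ℝ) * ξ * (3 / 2) ^ n⌋ - m * ⌊ξ * (3 / 2) ^ n⌋ : ℤ) : ℝ) := by
  unfold fr
  rw [Int.fract, Int.fract]
  push_cast
  ring

theorem dvd_of_int (N M : ℤ) (k : ℕ) (h : (N : ℝ) * (3 / 2) ^ k = M) : (2 : ℤ) ^ k ∣ N := by
  have h1 : (N : ℝ) * 3 ^ k = 2 ^ k * M := by
    rw [← h, div_pow]
    field_simp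
  have h2 : N * 3 ^ k = 2 ^ k * M := by exact_mod_cast h1
  refine IsCoprime.dvd_of_dvd_mul_right ?_ (⟨M, h2⟩ : (2 : ℤ) ^ k ∣ N * 3 ^ k)
  exact IsCoprime.pow (by rw [Int.isCoprime_iff_gcd_eq_one]; decide)

theorem zero_of_freq_int (ξ : ℝ) (h : ∃ᶠ n in atTop, fr ξ n = 0) : ξ = 0 := by
  obtain ⟨n0, hn0⟩ := h.exists
  have e0 : ξ * (3 / 2) ^ n0 = (⌊ξ * (3 / 2) ^ n0⌋ : ℝ) := by
    have : Int.fract (ξ * (3 / 2) ^ n0) = 0 := hn0
    rw [Int.fract] at this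
    linarith
  set N : ℤ := ⌊ξ * (3 / 2) ^ n0⌋ with hN
  by_contra hξ
  have hN0 : N ≠ 0 := by
    intro h0
    rw [h0] at e0
    simp at e0
    exact hξ e0
  obtain ⟨n, hn, hn1⟩ := (frequently_atTop.mp h) (n0 + N.natAbs)
  have e1 : ξ * (3 / 2) ^ n = (⌊ξ * (3 / 2) ^ n⌋ : ℝ) := by
    have : Int.fract (ξ * (3 / 2) ^ n) = 0 := hn1
    rw [Int.fract] at this
    linarith
  have h2 : (N : ℝ) * (3 / 2) ^ (n - n0) = (⌊ξ * (3 / 2) ^ n⌋ : ℝ) := by
    rw [← e1, ← e0, mul_assoc, ← pow_add]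
    congr 2
    omega
  have h3 := dvd_of_int N _ _ h2
  have h4 := Int.le_of_dvd (abs_pos.mpr hN0) ((dvd_abs _ _).mpr h3)
  have h5 : (N.natAbs : ℤ) < 2 ^ N.natAbs := by exact_mod_cast Nat.lt_two_pow_self
  have h6 : (2 : ℤ) ^ N.natAbs ≤ 2 ^ (n - n0) := pow_le_pow_right₀ (by norm_num) (by omega)
  have h7 : |N| = (N.natAbs : ℤ) := Int.abs_eq_natAbs N
  omega

theorem ev_ne_zero (ξ : ℝ) (hξ : ξ ≠ 0) : ∀ᶠ n in atTop, fr ξ n ≠ 0 := by
  by_contra h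
  exact hξ (zero_of_freq_int ξ (by simpa [Filter.Frequently] using h))

/-- limits along an ultrafilter of a shifted sequence of fractional parts -/
theorem lim_exists (ξ : ℝ) (U : Ultrafilter ℕ) (hU : (U : Filter ℕ) ≤ atTop) (k : ℕ) :
    ∃ y, Tendsto (fun n => fr ξ (n + k)) U (𝓝 y) ∧ 0 ≤ y ∧ MapClusterPt y atTop (fr ξ) := by
  obtain ⟨y, hy, hlim⟩ := (isCompact_Icc (a := (0 : ℝ)) (b := 1)).ultrafilter_le_nhds
    (U.map (fun n => fr ξ (n + k))) (by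
      rw [le_principal_iff]
      exact Filter.mem_map.mpr (Filter.univ_mem' fun n => ⟨fr_nonneg _ _, (fr_lt_one _ _).le⟩))
  have ht : Tendsto (fun n => fr ξ (n + k)) U (𝓝 y) := hlim
  refine ⟨y, ht, hy.1, ?_⟩
  have h1 : MapClusterPt y (U : Filter ℕ) (fr ξ ∘ (fun n => n + k)) := ht.mapClusterPt
  exact MapClusterPt.of_comp ((tendsto_add_atTop_nat k).mono_left hU) h1

/-- limit orbits along an ultrafilter -/
theorem exists_closed (ξ : ℝ) (m : ℤ) (U : Ultrafilter ℕ) (hU : (U : Filter ℕ) ≤ atTop) :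
    ∃ a b s t c, Orb m a b s t c ∧
      (∀ k, 0 ≤ a k ∧ MapClusterPt (a k) atTop (fr ξ)) ∧
      (∀ k, 0 ≤ b k ∧ MapClusterPt (b k) atTop (fr (m * ξ))) ∧
      Tendsto (fr ξ) U (𝓝 (a 0)) ∧ Tendsto (fr (m * ξ)) U (𝓝 (b 0)) := by
  choose a ha using fun k => lim_exists ξ U hU k
  choose b hb using fun k => lim_exists (m * ξ) U hU k
  have hclosed : IsClosed (Set.range ((↑) : ℤ → ℝ)) := Int.isClosedEmbedding_coe_real.isClosed_range
  have hs : ∀ k, ∃ z : ℤ, 2 * a (k + 1) = 3 * a k - z := by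
    intro k
    have h1 : Tendsto (fun n => 3 * fr ξ (n + k) - 2 * fr ξ (n + (k + 1))) U
        (𝓝 (3 * a k - 2 * a (k + 1))) :=
      ((ha k).1.const_mul 3).sub ((ha (k + 1)).1.const_mul 2)
    obtain ⟨z, hz⟩ := hclosed.mem_of_tendsto h1 (Eventually.of_forall fun n =>
      ⟨_, (fr_step ξ (n + k)).symm⟩)
    exact ⟨z, by linarith⟩
  have ht : ∀ k, ∃ z : ℤ, 2 * b (k + 1) = 3 * b k - z := by
    intro k
    have h1 : Tendsto (fun n => 3 * fr (m * ξ) (n + k) - 2 * fr (m * ξ) (n + (k + 1))) U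
        (𝓝 (3 * b k - 2 * b (k + 1))) :=
      ((hb k).1.const_mul 3).sub ((hb (k + 1)).1.const_mul 2)
    obtain ⟨z, hz⟩ := hclosed.mem_of_tendsto h1 (Eventually.of_forall fun n =>
      ⟨_, (fr_step (m * ξ) (n + k)).symm⟩)
    exact ⟨z, by linarith⟩
  have hc : ∀ k, ∃ z : ℤ, (m : ℝ) * a k - b k = z := by
    intro k
    have h1 : Tendsto (fun n => (m : ℝ) * fr ξ (n + k) - fr (m * ξ) (n + k)) U
        (𝓝 (m * a k - b k)) := ((ha k).1.const_mul (m : ℝ)).sub (hb k).1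
    obtain ⟨z, hz⟩ := hclosed.mem_of_tendsto h1 (Eventually.of_forall fun n =>
      ⟨_, (fr_mul ξ m (n + k)).symm⟩)
    exact ⟨z, hz.symm⟩
  choose s hs using hs
  choose t ht using ht
  choose c hc using hc
  refine ⟨a, b, s, t, c, ⟨hs, ht, hc⟩, fun k => (ha k).2, fun k => (hb k).2, ?_, ?_⟩
  · simpa using (ha 0).1
  · simpa using (hb 0).1

theorem exists_ultra (f : ℕ → ℝ) (P : ℝ → Prop) (hf : ¬ (∀ᶠ n in atTop, P (f n))) :
    ∃ U : Ultrafilter ℕ, (U : Filter ℕ) ≤ atTop ∧ ∀ᶠ n in (U : Filter ℕ), ¬ P (f n) := by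
  have h1 : ∃ᶠ n in atTop, ¬ P (f n) := by
    simpa [Filter.Frequently] using hf
  haveI : NeBot (atTop ⊓ 𝓟 {n | ¬ P (f n)}) := by
    rw [← frequently_mem_iff_neBot]
    exact h1
  exact ⟨Ultrafilter.of (atTop ⊓ 𝓟 {n | ¬ P (f n)}), (Ultrafilter.of_le _).trans inf_le_left,
    (Ultrafilter.of_le _).trans inf_le_right (mem_principal_self _)⟩

/-- an eventual bound from a bound on the accumulation points -/
theorem ev_lt_of_cluster (ξ u v : ℝ) (huv : u < v) (h : ∀ y, MapClusterPt y atTop (fr ξ) → y ≤ u) :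
    ∀ᶠ n in atTop, fr ξ n < v := by
  by_contra hn
  obtain ⟨U, hU, hev⟩ := exists_ultra (fr ξ) (fun x => x < v) hn
  obtain ⟨y, h1, -, h2⟩ := lim_exists ξ U hU 0
  have h3 : v ≤ y := ge_of_tendsto (by simpa using h1) (hev.mono fun n hn => not_lt.mp hn)
  linarith [h y h2]

theorem ev_gt_of_cluster (ξ u v : ℝ) (huv : v < u) (h : ∀ y, MapClusterPt y atTop (fr ξ) → u ≤ y) :
    ∀ᶠ n in atTop, v < fr ξ n := by
  by_contra hn
  obtain ⟨U, hU, hev⟩ := exists_ultra (fr ξ) (fun x => v < x) hn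
  obtain ⟨y, h1, -, h2⟩ := lim_exists ξ U hU 0
  have h3 : y ≤ v := le_of_tendsto (by simpa using h1) (hev.mono fun n hn => not_lt.mp hn)
  linarith [h y h2]

theorem orb_actual (ξ : ℝ) (m : ℤ) (N : ℕ) :
    Orb m (fun k => fr ξ (N + k)) (fun k => fr (m * ξ) (N + k))
      (fun k => 2 * ⌊ξ * (3 / 2) ^ (N + k + 1)⌋ - 3 * ⌊ξ * (3 / 2) ^ (N + k)⌋)
      (fun k => 2 * ⌊(m : ℝ) * ξ * (3 / 2) ^ (N + k + 1)⌋ - 3 * ⌊(m : ℝ) * ξ * (3 / 2) ^ (N + k)⌋)
      (fun k => ⌊(m : ℝ) * ξ * (3 / 2) ^ (N + k)⌋ - m * ⌊ξ * (3 / 2) ^ (N + k)⌋) :=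
  { sa := fun k => by have := fr_step ξ (N + k); rw [← add_assoc]; linarith
    sb := fun k => by have := fr_step (m * ξ) (N + k); rw [← add_assoc]; linarith
    hc := fun k => fr_mul ξ m (N + k) }

/-- an actual orbit is never eventually periodic -/
theorem not_periodic (ξ : ℝ) (hξ : ξ ≠ 0) (N K p : ℕ) (hp : 0 < p)
    (hs : ∀ j, 2 * ⌊ξ * (3 / 2) ^ (N + (K + p + j) + 1)⌋ - 3 * ⌊ξ * (3 / 2) ^ (N + (K + p + j))⌋ =
      2 * ⌊ξ * (3 / 2) ^ (N + (K + j) + 1)⌋ - 3 * ⌊ξ * (3 / 2) ^ (N + (K + j))⌋)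
    (ha : fr ξ (N + (K + p)) = fr ξ (N + K)) : False := by
  have hd : ∀ j, fr ξ (N + (K + p + j)) = fr ξ (N + (K + j)) := by
    intro j
    induction j with
    | zero => simpa using ha
    | succ j ih =>
      have e1 := fr_step ξ (N + (K + p + j))
      have e2 := fr_step ξ (N + (K + j))
      rw [hs j] at e1
      show fr ξ (N + (K + p + j) + 1) = fr ξ (N + (K + j) + 1)
      linarith
  set y : ℝ := ξ * (3 / 2) ^ (N + K) * ((3 / 2) ^ p - 1) with hy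
  have hy0 : y ≠ 0 := by
    refine mul_ne_zero (mul_ne_zero hξ (by positivity)) ?_
    have : (1 : ℝ) < (3 / 2) ^ p := one_lt_pow₀ (by norm_num) (by omega)
    linarith
  apply hy0
  apply zero_of_freq_int
  refine Frequently.of_forall fun j => ?_
  have h3 := hd j
  unfold fr at h3 ⊢
  rw [Int.fract_eq_fract] at h3
  obtain ⟨z, hz⟩ := h3
  have h4 : y * (3 / 2) ^ j = z := by
    rw [← hz, hy, show N + (K + p + j) = (N + K) + j + p by ring,
      show N + (K + j) = (N + K) + j by ring]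
    simp only [pow_add]
    ring
  rw [h4, Int.fract_intCast]

/-- both sets of accumulation points in `[0, 1/2]` is impossible -/
theorem core (ξ : ℝ) (hξ : ξ ≠ 0) (m : ℤ) (hm : 2 ≤ |m|)
    (hA : ∀ y, MapClusterPt y atTop (fr ξ) → y ≤ 1 / 2)
    (hB : ∀ y, MapClusterPt y atTop (fr (m * ξ)) → y ≤ 1 / 2) : False := by
  have h1 : ∀ᶠ n in atTop, fr ξ n < 1 / 2 := by
    by_contra h
    obtain ⟨U, hU, hev⟩ := exists_ultra (fr ξ) (fun x => x < 1 / 2) h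
    obtain ⟨a, b, s, t, c, ho, ha, hb, h1, -⟩ := exists_closed ξ m U hU
    have h2 : 1 / 2 ≤ a 0 := ge_of_tendsto h1 (hev.mono fun n hn => not_lt.mp hn)
    exact ho.a_ne_half₀ hm (fun k => ⟨(ha k).1, hA _ (ha k).2⟩)
      (fun k => ⟨(hb k).1, hB _ (hb k).2⟩) (le_antisymm (hA _ (ha 0).2) h2)
  have h2 : ∀ᶠ n in atTop, fr (m * ξ) n < 1 / 2 := by
    by_contra h
    obtain ⟨U, hU, hev⟩ := exists_ultra (fr (m * ξ)) (fun x => x < 1 / 2) h
    obtain ⟨a, b, s, t, c, ho, ha, hb, -, h1⟩ := exists_closed ξ m U hU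
    have h2 : 1 / 2 ≤ b 0 := ge_of_tendsto h1 (hev.mono fun n hn => not_lt.mp hn)
    exact ho.b_ne_half₀ hm (fun k => ⟨(ha k).1, hA _ (ha k).2⟩)
      (fun k => ⟨(hb k).1, hB _ (hb k).2⟩) (le_antisymm (hB _ (hb 0).2) h2)
  have hm0 : (m : ℝ) ≠ 0 := by
    have : m ≠ 0 := by rintro rfl; simp at hm
    exact_mod_cast this
  obtain ⟨N, hN⟩ := eventually_atTop.mp ((h1.and h2).and ((ev_ne_zero ξ hξ).and
    (ev_ne_zero (m * ξ) (mul_ne_zero hm0 hξ))))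
  obtain ⟨K, p, hp, hs, ha, -⟩ := (orb_actual ξ m N).periodic_half hm
    (fun k => ⟨lt_of_le_of_ne (fr_nonneg _ _) (Ne.symm (hN (N + k) (by omega)).2.1),
      (hN (N + k) (by omega)).1.1⟩)
    (fun k => ⟨lt_of_le_of_ne (fr_nonneg _ _) (Ne.symm (hN (N + k) (by omega)).2.2),
      (hN (N + k) (by omega)).1.2⟩)
  exact not_periodic ξ hξ N K p hp hs ha

/-- accumulation points of the first sequence in `[0, 1/2]`, of the second one in a window -/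
theorem core_window (ξ : ℝ) (hξ : ξ ≠ 0) (m : ℤ) (hm : 2 ≤ m) (y : ℝ) (hy : 0 < y)
    (hy' : y < 1 / 2) (hA : ∀ z, MapClusterPt z atTop (fr ξ) → z ≤ 1 / 2)
    (hB : ∀ z, MapClusterPt z atTop (fr (m * ξ)) → y ≤ z ∧ z ≤ y + 1 / 2) : False := by
  have h1 : ∀ᶠ n in atTop, fr ξ n < 1 / 2 := by
    by_contra h
    obtain ⟨U, hU, hev⟩ := exists_ultra (fr ξ) (fun x => x < 1 / 2) h
    obtain ⟨a, b, s, t, c, ho, ha, hb, h1, -⟩ := exists_closed ξ m U hU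
    have h2 : 1 / 2 ≤ a 0 := ge_of_tendsto h1 (hev.mono fun n hn => not_lt.mp hn)
    exact ho.window_ne_half₀ hm (fun k => ⟨(ha k).1, hA _ (ha k).2⟩) y hy hy'
      (fun k => hB _ (hb k).2) (le_antisymm (hA _ (ha 0).2) h2)
  set e : ℝ := min y (1 / 2 - y) / 6 with he
  have he0 : 0 < e := by
    have : 0 < min y (1 / 2 - y) := lt_min hy (by linarith)
    positivity
  have he1 : 6 * e ≤ y := by
    have := min_le_left y (1 / 2 - y)
    rw [he]; linarith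
  have he2 : 6 * e ≤ 1 / 2 - y := by
    have := min_le_right y (1 / 2 - y)
    rw [he]; linarith
  have h2 := ev_lt_of_cluster (m * ξ) (y + 1 / 2) (y + 1 / 2 + e) (by linarith)
    (fun z hz => (hB z hz).2)
  have h3 := ev_gt_of_cluster (m * ξ) y (y - e) (by linarith) (fun z hz => (hB z hz).1)
  obtain ⟨N, hN⟩ := eventually_atTop.mp ((h1.and h2).and ((ev_ne_zero ξ hξ).and h3))
  obtain ⟨K, p, hp, hs, ha, -⟩ := (orb_actual ξ m N).periodic_window hm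
    (fun k => ⟨lt_of_le_of_ne (fr_nonneg _ _) (Ne.symm (hN (N + k) (by omega)).2.1),
      (hN (N + k) (by omega)).1.1⟩) y e he0.le (by linarith) (by linarith)
    (fun k => ⟨(hN (N + k) (by omega)).2.2.le, (hN (N + k) (by omega)).1.2.le⟩)
  exact not_periodic ξ hξ N K p hp hs ha

theorem neg_cluster (ξ : ℝ) (hξ : ξ ≠ 0) (y : ℝ) (h : MapClusterPt y atTop (fr (-ξ))) :
    MapClusterPt (1 - y) atTop (fr ξ) := by
  have h1 : MapClusterPt (1 - y) atTop ((fun x => 1 - x) ∘ fr (-ξ)) :=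
    h.continuousAt_comp (by fun_prop : ContinuousAt (fun x : ℝ => 1 - x) y)
  have h2 : ((fun x => 1 - x) ∘ fr (-ξ)) =ᶠ[atTop] fr ξ := by
    filter_upwards [ev_ne_zero ξ hξ] with n hn
    simp only [Function.comp_apply, fr] at hn ⊢
    rw [neg_mul, Int.fract_neg hn]
    ring
  rw [MapClusterPt, Filter.map_congr h2] at h1
  exact h1

theorem cluster_mem (ξ y : ℝ) (h : MapClusterPt y atTop (fr ξ)) : 0 ≤ y ∧ y ≤ 1 := by
  have h1 : y ∈ closure (Set.Icc (0 : ℝ) 1) := by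
    rw [mem_closure_iff_clusterPt]
    refine ClusterPt.mono h ?_
    rw [le_principal_iff]
    exact Filter.mem_map.mpr (Filter.univ_mem' fun n => ⟨fr_nonneg _ _, (fr_lt_one _ _).le⟩)
  rwa [isClosed_Icc.closure_eq] at h1

/-- lower half and any window of length one half -/
theorem lower_window (ξ : ℝ) (hξ : ξ ≠ 0) (m : ℤ) (hm : 2 ≤ m)
    (hA : ∀ z, MapClusterPt z atTop (fr ξ) → z ≤ 1 / 2) (y : ℝ)
    (hB : ∀ z, MapClusterPt z atTop (fr (m * ξ)) → y ≤ z ∧ z ≤ y + 1 / 2) : False := by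
  have habs : |m| = m := abs_of_nonneg (by omega)
  have hm0 : (m : ℝ) ≠ 0 := by
    have : m ≠ 0 := by omega
    exact_mod_cast this
  rcases le_or_gt y 0 with h | h
  · exact core ξ hξ m (by omega) hA (fun z hz => by linarith [(hB z hz).2])
  rcases lt_or_ge y (1 / 2) with h' | h'
  · exact core_window ξ hξ m hm y h h' hA hB
  · refine core ξ hξ (-m) (by rw [abs_neg]; omega) hA (fun z hz => ?_)
    push_cast at hz
    rw [neg_mul] at hz
    have := (hB _ (neg_cluster (m * ξ) (mul_ne_zero hm0 hξ) z hz)).1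
    linarith

/-- a half and any window of length one half -/
theorem half_window (ξ : ℝ) (hξ : ξ ≠ 0) (m : ℤ) (hm : 2 ≤ m)
    (hA : (∀ z, MapClusterPt z atTop (fr ξ) → z ≤ 1 / 2) ∨
      (∀ z, MapClusterPt z atTop (fr ξ) → 1 / 2 ≤ z)) (y : ℝ)
    (hB : ∀ z, MapClusterPt z atTop (fr (m * ξ)) → y ≤ z ∧ z ≤ y + 1 / 2) : False := by
  have hm0 : (m : ℝ) ≠ 0 := by
    have : m ≠ 0 := by omega
    exact_mod_cast this
  rcases hA with hA | hA
  · exact lower_window ξ hξ m hm hA y hB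
  · refine lower_window (-ξ) (neg_ne_zero.mpr hξ) m hm (fun z hz => ?_) (1 / 2 - y) (fun z hz => ?_)
    · have := hA _ (neg_cluster ξ hξ z hz)
      linarith
    · rw [mul_neg] at hz
      have := hB _ (neg_cluster (m * ξ) (mul_ne_zero hm0 hξ) z hz)
      constructor <;> linarith [this.1, this.2]

theorem cluster_nonempty (ξ : ℝ) : ∃ y, MapClusterPt y atTop (fr ξ) := by
  obtain ⟨y, -, -, h⟩ := lim_exists ξ (Ultrafilter.of atTop) (Ultrafilter.of_le _) 0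
  exact ⟨y, h⟩

theorem far_points (ξ : ℝ)
    (h : ∀ y, ¬ ∀ z, MapClusterPt z atTop (fr ξ) → y ≤ z ∧ z ≤ y + 1 / 2) :
    ∃ y z, MapClusterPt y atTop (fr ξ) ∧ MapClusterPt z atTop (fr ξ) ∧ 1 / 2 < z - y := by
  have hcl : IsClosed {z | MapClusterPt z atTop (fr ξ)} := isClosed_setOf_clusterPt
  have hne : {z | MapClusterPt z atTop (fr ξ)}.Nonempty := cluster_nonempty ξ
  have hbd : BddBelow {z | MapClusterPt z atTop (fr ξ)} := ⟨0, fun z hz => (cluster_mem ξ z hz).1⟩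
  have hmem := hcl.csInf_mem hne hbd
  set y := sInf {z | MapClusterPt z atTop (fr ξ)} with hy
  have h1 := h y
  push Not at h1
  obtain ⟨z, hz, h2⟩ := h1
  have h3 : y ≤ z := csInf_le hbd hz
  exact ⟨y, z, hmem, hz, by linarith [h2 h3]⟩

theorem main (ξ : ℝ) (hξ : ξ ≠ 0) (m : ℤ) (hm : 2 ≤ m) :
    ((∃ y, MapClusterPt y atTop (fr ξ) ∧ y < 1 / 2) ∧
      (∃ y, MapClusterPt y atTop (fr ξ) ∧ 1 / 2 < y)) ∨
    ∃ y z, MapClusterPt y atTop (fr (m * ξ)) ∧ MapClusterPt z atTop (fr (m * ξ)) ∧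
      1 / 2 < z - y := by
  by_contra hcon
  rw [not_or] at hcon
  obtain ⟨h1, h2⟩ := hcon
  apply h2
  apply far_points
  intro y hB
  refine half_window ξ hξ m hm ?_ y hB
  by_contra h3
  rw [not_or] at h3
  push Not at h3
  exact h1 ⟨h3.2, h3.1⟩

end Pool.Agent.Helper57.ZM
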