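import Mathlib

set_option autoImplicit false

namespace Pool.Agent.Helper57.ZM

theorem tr4_1 (u v s : ℤ) (h : 2 * v = 3 * u - 4 * s + 1) (hs : s = 0 ∨ s = 1) (r : 0 ≤ u ∧ u ≤ 3)
    (r' : 0 ≤ v ∧ v ≤ 3) : (u = 1 ∧ v = 2) ∨ (u = 1 ∧ v = 0) ∨ (u = 3 ∧ v = 3) := by
  rcases hs with e | e <;> rw [e] at h <;> omega

theorem tr4_0 (u v s : ℤ) (h : 2 * v = 3 * u - 4 * s + 0) (hs : s = 0 ∨ s = 1) (r : 0 ≤ u ∧ u ≤ 3)
    (r' : 0 ≤ v ∧ v ≤ 3) : (u = 0 ∧ v = 0) ∨ (u = 2 ∧ v = 3) ∨ (u = 2 ∧ v = 1) := by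
  rcases hs with e | e <;> rw [e] at h <;> omega

theorem tr5_1 (u v s : ℤ) (h : 2 * v = 3 * u - 5 * s + 1) (hs : s = 0 ∨ s = 1) (r : 0 ≤ u ∧ u ≤ 4)
    (r' : 0 ≤ v ∧ v ≤ 4) : (u = 1 ∧ v = 2) ∨ (u = 2 ∧ v = 1) ∨ (u = 4 ∧ v = 4) := by
  rcases hs with e | e <;> rw [e] at h <;> omega

theorem tr5_0 (u v s : ℤ) (h : 2 * v = 3 * u - 5 * s + 0) (hs : s = 0 ∨ s = 1) (r : 0 ≤ u ∧ u ≤ 4)
    (r' : 0 ≤ v ∧ v ≤ 4) : (u = 0 ∧ v = 0) ∨ (u = 2 ∧ v = 3) ∨ (u = 3 ∧ v = 2) := by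
  rcases hs with e | e <;> rw [e] at h <;> omega

theorem tr7_1 (u v s : ℤ) (h : 2 * v = 3 * u - 7 * s + 1) (hs : s = 0 ∨ s = 1) (r : 0 ≤ u ∧ u ≤ 6)
    (r' : 0 ≤ v ∧ v ≤ 6) :
    (u = 1 ∧ v = 2) ∨ (u = 2 ∧ v = 0) ∨ (u = 3 ∧ v = 5) ∨ (u = 4 ∧ v = 3) ∨ (u = 6 ∧ v = 6) := by
  rcases hs with e | e <;> rw [e] at h <;> omega

theorem tr7_0 (u v s : ℤ) (h : 2 * v = 3 * u - 7 * s + 0) (hs : s = 0 ∨ s = 1) (r : 0 ≤ u ∧ u ≤ 6)
    (r' : 0 ≤ v ∧ v ≤ 6) :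
    (u = 0 ∧ v = 0) ∨ (u = 2 ∧ v = 3) ∨ (u = 3 ∧ v = 1) ∨ (u = 4 ∧ v = 6) ∨ (u = 5 ∧ v = 4) := by
  rcases hs with e | e <;> rw [e] at h <;> omega

/-- the word `1,0,1,0,0,0,0,0,1` of digits of the orbit of `1/2` -/
def wd : ℕ → ℤ := fun k => if k = 0 ∨ k = 2 ∨ k = 8 then 1 else 0

theorem no_word (m : ℤ) (hm : m = 2 ∨ m = 4 ∨ m = 5 ∨ m = 7) (c s : ℕ → ℤ)
    (hs : ∀ k, s k = 0 ∨ s k = 1) (hr : ∀ k, 0 ≤ c k ∧ c k ≤ m - 1)
    (h : ∀ k, k ≤ 8 → 2 * c (k + 1) = 3 * c k - m * s k + wd k) : False := by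
  have h0 := h 0 (by norm_num)
  have h1 := h 1 (by norm_num)
  have h2 := h 2 (by norm_num)
  have h3 := h 3 (by norm_num)
  have h4 := h 4 (by norm_num)
  have h5 := h 5 (by norm_num)
  have h6 := h 6 (by norm_num)
  have h7 := h 7 (by norm_num)
  have h8 := h 8 (by norm_num)
  rw [show wd 0 = 1 by decide] at h0
  rw [show wd 1 = 0 by decide] at h1
  rw [show wd 2 = 1 by decide] at h2
  rw [show wd 3 = 0 by decide] at h3
  rw [show wd 4 = 0 by decide] at h4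
  rw [show wd 5 = 0 by decide] at h5
  rw [show wd 6 = 0 by decide] at h6
  rw [show wd 7 = 0 by decide] at h7
  rw [show wd 8 = 1 by decide] at h8
  clear h
  rcases hm with rfl | rfl | rfl | rfl
  · have r0 := hr 0
    have r1 := hr 1
    have r2 := hr 2
    simp only [zero_add, Nat.reduceAdd] at h0 h1
    clear h2 h3 h4 h5 h6 h7 h8
    have a0 : c 1 = 1 := by
      rcases hs 0 with e | e
      · rw [e] at h0; omega
      · rw [e] at h0; omega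
    rcases hs 1 with e | e <;> rw [e, a0] at h1 <;> omega
  · have q := fun k => (hr k)
    have q0 := tr4_1 _ _ _ h0 (hs 0) (by simpa using hr 0) (by simpa using hr 1)
    have q1 := tr4_0 _ _ _ h1 (hs 1) (by simpa using hr 1) (by simpa using hr 2)
    have q2 := tr4_1 _ _ _ h2 (hs 2) (by simpa using hr 2) (by simpa using hr 3)
    have q3 := tr4_0 _ _ _ h3 (hs 3) (by simpa using hr 3) (by simpa using hr 4)
    have q4 := tr4_0 _ _ _ h4 (hs 4) (by simpa using hr 4) (by simpa using hr 5)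
    have q5 := tr4_0 _ _ _ h5 (hs 5) (by simpa using hr 5) (by simpa using hr 6)
    have q6 := tr4_0 _ _ _ h6 (hs 6) (by simpa using hr 6) (by simpa using hr 7)
    have q7 := tr4_0 _ _ _ h7 (hs 7) (by simpa using hr 7) (by simpa using hr 8)
    have q8 := tr4_1 _ _ _ h8 (hs 8) (by simpa using hr 8) (by simpa using hr 9)
    clear h0 h1 h2 h3 h4 h5 h6 h7 h8 hr hs q
    simp only [zero_add, Nat.reduceAdd] at q0 q1 q2 q3 q4 q5 q6 q7 q8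
    generalize c 0 = x0 at *
    generalize c 1 = x1 at *
    generalize c 2 = x2 at *
    generalize c 3 = x3 at *
    generalize c 4 = x4 at *
    generalize c 5 = x5 at *
    generalize c 6 = x6 at *
    generalize c 7 = x7 at *
    generalize c 8 = x8 at *
    generalize c 9 = x9 at *
    have a4 : x5 = 0 := by omega
    clear q0 q1 q2 q3 q4
    omega
  · have q0 := tr5_1 _ _ _ h0 (hs 0) (by simpa using hr 0) (by simpa using hr 1)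
    have q1 := tr5_0 _ _ _ h1 (hs 1) (by simpa using hr 1) (by simpa using hr 2)
    have q2 := tr5_1 _ _ _ h2 (hs 2) (by simpa using hr 2) (by simpa using hr 3)
    clear h0 h1 h2 h3 h4 h5 h6 h7 h8 hr hs
    simp only [zero_add, Nat.reduceAdd] at q0 q1 q2
    omega
  · have q0 := tr7_1 _ _ _ h0 (hs 0) (by simpa using hr 0) (by simpa using hr 1)
    have q1 := tr7_0 _ _ _ h1 (hs 1) (by simpa using hr 1) (by simpa using hr 2)
    have q2 := tr7_1 _ _ _ h2 (hs 2) (by simpa using hr 2) (by simpa using hr 3)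
    have q3 := tr7_0 _ _ _ h3 (hs 3) (by simpa using hr 3) (by simpa using hr 4)
    have q4 := tr7_0 _ _ _ h4 (hs 4) (by simpa using hr 4) (by simpa using hr 5)
    have q5 := tr7_0 _ _ _ h5 (hs 5) (by simpa using hr 5) (by simpa using hr 6)
    clear h0 h1 h2 h3 h4 h5 h6 h7 h8 hr hs
    simp only [zero_add, Nat.reduceAdd] at q0 q1 q2 q3 q4 q5
    have a2 : c 2 = 3 ∨ c 2 = 4 ∨ c 2 = 0 ∨ c 2 = 1 := by clear q2 q3 q4 q5; omega
    clear q0 q1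
    have a3 : c 3 = 5 ∨ c 3 = 3 ∨ c 3 = 2 := by clear q3 q4 q5; omega
    clear q2 a2
    have a4 : c 4 = 4 ∨ c 4 = 1 ∨ c 4 = 3 := by clear q4 q5; omega
    clear q3 a3
    omega

end Pool.Agent.Helper57.ZM
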