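import Pool.Agent.Helper57.ZM.Cases
import Pool.Agent.Helper57.ZM.NoWord

set_option autoImplicit false
open Filter Topology

namespace Pool.Agent.Helper57.ZM

variable {m : ℤ} {a b : ℕ → ℝ} {s t c : ℕ → ℤ}

theorem orb_step_half (x : ℕ → ℝ) (z : ℕ → ℤ) (hx : ∀ k, 2 * x (k + 1) = 3 * x k - z k)
    (hC : ∀ k, 0 ≤ x k ∧ x k ≤ 1 / 2) (k : ℕ) (v : ℝ) (d : ℤ) (hv : x k = v)
    (h1 : 3 * v - 1 < d + 1) (h2 : (d : ℝ) - 1 < 3 * v - 1)
    (h3 : 3 * v - 1 ≤ d) (h4 : (d : ℝ) ≤ 3 * v) (h5 : 3 * v < d + 1) :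
    z k = d ∧ x (k + 1) = (3 * v - d) / 2 := by
  have e1 := hx k
  have e2 := hC (k + 1)
  rw [hv] at e1
  have g1 : (d : ℝ) - 1 < z k := by linarith [e2.1, e2.2]
  have g2 : (z k : ℝ) < d + 1 := by linarith [e2.1, e2.2]
  have g3 : d - 1 < z k := by exact_mod_cast g1
  have g4 : z k < d + 1 := by exact_mod_cast g2
  have g5 : z k = d := by omega
  refine ⟨g5, ?_⟩
  rw [g5] at e1
  linarith

/-- the second coordinate of a closed orbit never is `1/2` when the first one stays in an interior window -/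
theorem Orb.b_ne_half_window (h : Orb m a b s t c) (hm : m = 2 ∨ m = 4 ∨ m = 5 ∨ m = 7) (x : ℝ)
    (hx : 0 < x) (hx' : x < 1 / 2) (ha : ∀ k, x ≤ a k ∧ a k ≤ x + 1 / 2)
    (hb : ∀ k, 0 ≤ b k ∧ b k ≤ 1 / 2) : b 0 ≠ 1 / 2 := by
  intro h0
  have hs : ∀ k, s k = 0 ∨ s k = 1 := by
    intro k
    have g1 := ha k
    have g2 := ha (k + 1)
    have g3 := h.sa k
    have h4 : (-1 : ℝ) < s k := by linarith [g1.1, g2.2]
    have h5 : (s k : ℝ) < 2 := by linarith [g1.2, g2.1]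
    have h6 : (-1 : ℤ) < s k := by exact_mod_cast h4
    have h7 : s k < 2 := by exact_mod_cast h5
    omega
  have hm2 : (2 : ℤ) ≤ m := by omega
  have hr : ∀ k, 0 ≤ c k ∧ c k ≤ m - 1 := by
    intro k
    have g1 := ha k
    have g2 := hb k
    have g3 := h.hc k
    have hm' : (2 : ℝ) ≤ m := by exact_mod_cast hm2
    have h4 : (-1 : ℝ) < c k := by nlinarith [g1.1, g2.2]
    have h5 : ((c k : ℝ)) < m := by nlinarith [g1.2, g2.1]
    have h6 : (-1 : ℤ) < c k := by exact_mod_cast h4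
    have h7 : c k < m := by exact_mod_cast h5
    omega
  have st := orb_step_half b t h.sb hb
  obtain ⟨t0, b1⟩ := st 0 (1 / 2) 1 h0 (by norm_num) (by norm_num) (by norm_num) (by norm_num) (by norm_num)
  obtain ⟨t1, b2⟩ := st 1 _ 0 b1 (by norm_num) (by norm_num) (by norm_num) (by norm_num) (by norm_num)
  obtain ⟨t2, b3⟩ := st 2 _ 1 b2 (by norm_num) (by norm_num) (by norm_num) (by norm_num) (by norm_num)
  obtain ⟨t3, b4⟩ := st 3 _ 0 b3 (by norm_num) (by norm_num) (by norm_num) (by norm_num) (by norm_num)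
  obtain ⟨t4, b5⟩ := st 4 _ 0 b4 (by norm_num) (by norm_num) (by norm_num) (by norm_num) (by norm_num)
  obtain ⟨t5, b6⟩ := st 5 _ 0 b5 (by norm_num) (by norm_num) (by norm_num) (by norm_num) (by norm_num)
  obtain ⟨t6, b7⟩ := st 6 _ 0 b6 (by norm_num) (by norm_num) (by norm_num) (by norm_num) (by norm_num)
  obtain ⟨t7, b8⟩ := st 7 _ 0 b7 (by norm_num) (by norm_num) (by norm_num) (by norm_num) (by norm_num)
  obtain ⟨t8, -⟩ := st 8 _ 1 b8 (by norm_num) (by norm_num) (by norm_num) (by norm_num) (by norm_num)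
  refine no_word m hm c s hs hr ?_
  intro k hk
  have e1 := h.step k
  have hw : t k = wd k := by
    have hk' : k = 0 ∨ k = 1 ∨ k = 2 ∨ k = 3 ∨ k = 4 ∨ k = 5 ∨ k = 6 ∨ k = 7 ∨ k = 8 := by omega
    rcases hk' with rfl | rfl | rfl | rfl | rfl | rfl | rfl | rfl | rfl
    · exact t0.trans (by decide)
    · exact t1.trans (by decide)
    · exact t2.trans (by decide)
    · exact t3.trans (by decide)
    · exact t4.trans (by decide)
    · exact t5.trans (by decide)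
    · exact t6.trans (by decide)
    · exact t7.trans (by decide)
    · exact t8.trans (by decide)
  rw [← hw]
  exact e1

/-- an actual sequence has no eventually periodic digits -/
theorem not_EP (ξ : ℝ) (hξ : ξ ≠ 0) (N : ℕ)
    (h : EP (fun k => 2 * ⌊ξ * (3 / 2) ^ (N + k + 1)⌋ - 3 * ⌊ξ * (3 / 2) ^ (N + k)⌋)) : False := by
  obtain ⟨K, p, hp, hs⟩ := h
  refine not_periodic ξ hξ N K p hp hs ?_
  have := zero_of_bdd (fun j => fr ξ (N + (K + p + j)) - fr ξ (N + (K + j))) (fun j => by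
    have e1 := fr_step ξ (N + (K + p + j))
    have e2 := fr_step ξ (N + (K + j))
    have e3 := hs j
    simp only at e3
    rw [e3] at e1
    show 2 * (fr ξ (N + (K + p + j) + 1) - fr ξ (N + (K + j) + 1)) = _
    linarith) (fun j => by
    have h1 := fr_nonneg ξ (N + (K + p + j))
    have h2 := fr_lt_one ξ (N + (K + p + j))
    have h3 := fr_nonneg ξ (N + (K + j))
    have h4 := fr_lt_one ξ (N + (K + j))
    rw [abs_le]
    constructor <;> linarith)
  simp only [add_zero] at this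
  linarith

theorem dat_actual (ξ : ℝ) (m : ℤ) (hm : 2 ≤ m) (N : ℕ) (x y e : ℝ) (he : 0 ≤ e)
    (hx : 5 * e < x) (hx' : x + 5 * e < 1 / 2)
    (ha : ∀ k, N ≤ k → x - e ≤ fr ξ k ∧ fr ξ k ≤ x + 1 / 2 + e)
    (hb : ∀ k, N ≤ k → y - e ≤ fr (m * ξ) k ∧ fr (m * ξ) k ≤ y + 1 / 2 + e)
    (ht : (5 * e < y ∧ y + 5 * e < 1 / 2) ∨ (∀ k, N ≤ k → 0 < fr (m * ξ) k ∧ fr (m * ξ) k < 1 / 2)) :
    Dat m x y e (fun k => fr ξ (N + k)) (fun k => fr (m * ξ) (N + k))
      (fun k => 2 * ⌊ξ * (3 / 2) ^ (N + k + 1)⌋ - 3 * ⌊ξ * (3 / 2) ^ (N + k)⌋)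
      (fun k => 2 * ⌊(m : ℝ) * ξ * (3 / 2) ^ (N + k + 1)⌋ - 3 * ⌊(m : ℝ) * ξ * (3 / 2) ^ (N + k)⌋)
      (fun k => ⌊(m : ℝ) * ξ * (3 / 2) ^ (N + k)⌋ - m * ⌊ξ * (3 / 2) ^ (N + k)⌋) := by
  have ho := orb_actual ξ m N
  refine { toOrb := ho, ha := fun k => ha _ (by omega), hb := fun k => hb _ (by omega), hs := ?_,
           ht := ?_, hr := ?_ }
  · intro k
    have g1 := ha (N + k) (by omega)
    have g2 := ha (N + (k + 1)) (by omega)
    have g3 := ho.sa k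
    set z : ℤ := 2 * ⌊ξ * (3 / 2) ^ (N + k + 1)⌋ - 3 * ⌊ξ * (3 / 2) ^ (N + k)⌋
    have h4 : (-1 : ℝ) < z := by linarith [g1.1, g2.2]
    have h5 : (z : ℝ) < 2 := by linarith [g1.2, g2.1]
    have h6 : (-1 : ℤ) < z := by exact_mod_cast h4
    have h7 : z < 2 := by exact_mod_cast h5
    omega
  · intro k
    have g3 := ho.sb k
    set z : ℤ := 2 * ⌊(m : ℝ) * ξ * (3 / 2) ^ (N + k + 1)⌋ - 3 * ⌊(m : ℝ) * ξ * (3 / 2) ^ (N + k)⌋
    have h45 : (-1 : ℝ) < z ∧ (z : ℝ) < 2 := by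
      rcases ht with ht | ht
      · have g1 := hb (N + k) (by omega)
        have g2 := hb (N + (k + 1)) (by omega)
        constructor <;> linarith [g1.1, g2.2, g1.2, g2.1, ht.1, ht.2]
      · have g1 := ht (N + k) (by omega)
        have g2 := ht (N + (k + 1)) (by omega)
        constructor <;> linarith [g1.1, g2.2, g1.2, g2.1]
    have h6 : (-1 : ℤ) < z := by exact_mod_cast h45.1
    have h7 : z < 2 := by exact_mod_cast h45.2
    omega
  · intro k
    have g3 := ho.hc k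
    set z : ℤ := ⌊(m : ℝ) * ξ * (3 / 2) ^ (N + k)⌋ - m * ⌊ξ * (3 / 2) ^ (N + k)⌋
    have hm' : (2 : ℝ) ≤ m := by exact_mod_cast hm
    have u1 := fr_nonneg ξ (N + k)
    have u2 := fr_lt_one ξ (N + k)
    have u3 := fr_nonneg (m * ξ) (N + k)
    have u4 := fr_lt_one (m * ξ) (N + k)
    have h4 : (-1 : ℝ) < z := by nlinarith
    have h5 : (z : ℝ) < m := by nlinarith
    have h6 : (-1 : ℤ) < z := by exact_mod_cast h4
    have h7 : z < m := by exact_mod_cast h5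
    omega

theorem Dat.all {x y e : ℝ} (h : Dat m x y e a b s t c) (hm : m = 2 ∨ m = 4 ∨ m = 5 ∨ m = 7)
    (he : e ≤ 1 / 200) : EP s := by
  rcases hm with rfl | rfl | rfl | rfl
  · exact h.two
  · exact h.four
  · exact h.five (by linarith)
  · exact h.seven he

/-- both windows inside `(0,1)` -/
theorem interior (ξ : ℝ) (hξ : ξ ≠ 0) (m : ℤ) (hm : m = 2 ∨ m = 4 ∨ m = 5 ∨ m = 7) (x y : ℝ)
    (hx : 0 < x) (hx' : x < 1 / 2) (hy : 0 < y) (hy' : y < 1 / 2)
    (hA : ∀ z, MapClusterPt z atTop (fr ξ) → x ≤ z ∧ z ≤ x + 1 / 2)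
    (hB : ∀ z, MapClusterPt z atTop (fr (m * ξ)) → y ≤ z ∧ z ≤ y + 1 / 2) : False := by
  set e : ℝ := min (min x (1 / 2 - x)) (min y (1 / 2 - y)) / 100 with he
  have hpos : 0 < min (min x (1 / 2 - x)) (min y (1 / 2 - y)) :=
    lt_min (lt_min hx (by linarith)) (lt_min hy (by linarith))
  have h1 : min (min x (1 / 2 - x)) (min y (1 / 2 - y)) ≤ x := (min_le_left _ _).trans (min_le_left _ _)
  have h2 : min (min x (1 / 2 - x)) (min y (1 / 2 - y)) ≤ 1 / 2 - x :=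
    (min_le_left _ _).trans (min_le_right _ _)
  have h3 : min (min x (1 / 2 - x)) (min y (1 / 2 - y)) ≤ y := (min_le_right _ _).trans (min_le_left _ _)
  have h4 : min (min x (1 / 2 - x)) (min y (1 / 2 - y)) ≤ 1 / 2 - y :=
    (min_le_right _ _).trans (min_le_right _ _)
  set M := min (min x (1 / 2 - x)) (min y (1 / 2 - y))
  have a1 := ev_lt_of_cluster ξ (x + 1 / 2) (x + 1 / 2 + e) (by linarith) (fun z hz => (hA z hz).2)
  have a2 := ev_gt_of_cluster ξ x (x - e) (by linarith) (fun z hz => (hA z hz).1)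
  have a3 := ev_lt_of_cluster (m * ξ) (y + 1 / 2) (y + 1 / 2 + e) (by linarith)
    (fun z hz => (hB z hz).2)
  have a4 := ev_gt_of_cluster (m * ξ) y (y - e) (by linarith) (fun z hz => (hB z hz).1)
  obtain ⟨N, hN⟩ := eventually_atTop.mp ((a1.and a2).and (a3.and a4))
  have hd := dat_actual ξ m (by omega) N x y e (by linarith) (by linarith) (by linarith)
    (fun k hk => ⟨(hN k hk).1.2.le, (hN k hk).1.1.le⟩)
    (fun k hk => ⟨(hN k hk).2.2.le, (hN k hk).2.1.le⟩) (Or.inl ⟨by linarith, by linarith⟩)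
  exact not_EP ξ hξ N (hd.all hm (by linarith))

/-- the first window inside `(0,1)`, the second set in the lower half -/
theorem interior_low (ξ : ℝ) (hξ : ξ ≠ 0) (m : ℤ) (hm : m = 2 ∨ m = 4 ∨ m = 5 ∨ m = 7) (x : ℝ)
    (hx : 0 < x) (hx' : x < 1 / 2)
    (hA : ∀ z, MapClusterPt z atTop (fr ξ) → x ≤ z ∧ z ≤ x + 1 / 2)
    (hB : ∀ z, MapClusterPt z atTop (fr (m * ξ)) → z ≤ 1 / 2) : False := by
  set e : ℝ := min x (1 / 2 - x) / 100 with he
  have hpos : 0 < min x (1 / 2 - x) := lt_min hx (by linarith)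
  have h1 : min x (1 / 2 - x) ≤ x := min_le_left _ _
  have h2 : min x (1 / 2 - x) ≤ 1 / 2 - x := min_le_right _ _
  set M := min x (1 / 2 - x)
  have a1 := ev_lt_of_cluster ξ (x + 1 / 2) (x + 1 / 2 + e) (by linarith) (fun z hz => (hA z hz).2)
  have a2 := ev_gt_of_cluster ξ x (x - e) (by linarith) (fun z hz => (hA z hz).1)
  have a3 : ∀ᶠ n in atTop, fr (m * ξ) n < 1 / 2 := by
    by_contra h
    obtain ⟨U, hU, hev⟩ := exists_ultra (fr (m * ξ)) (fun x => x < 1 / 2) h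
    obtain ⟨a, b, s, t, c, ho, ha, hb, -, h1⟩ := exists_closed ξ m U hU
    have h2 : 1 / 2 ≤ b 0 := ge_of_tendsto h1 (hev.mono fun n hn => not_lt.mp hn)
    exact ho.b_ne_half_window hm x hx hx' (fun k => hA _ (ha k).2)
      (fun k => ⟨(hb k).1, hB _ (hb k).2⟩) (le_antisymm (hB _ (hb 0).2) h2)
  have hm0 : (m : ℝ) ≠ 0 := by
    have : m ≠ 0 := by omega
    exact_mod_cast this
  obtain ⟨N, hN⟩ := eventually_atTop.mp ((a1.and a2).and (a3.and
    (ev_ne_zero (m * ξ) (mul_ne_zero hm0 hξ))))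
  have hd := dat_actual ξ m (by omega) N x 0 e (by linarith) (by linarith) (by linarith)
    (fun k hk => ⟨(hN k hk).1.2.le, (hN k hk).1.1.le⟩)
    (fun k hk => ⟨by linarith [fr_nonneg (m * ξ) k], by linarith [(hN k hk).2.1]⟩)
    (Or.inr fun k hk => ⟨lt_of_le_of_ne (fr_nonneg _ _) (Ne.symm (hN k hk).2.2), (hN k hk).2.1⟩)
  exact not_EP ξ hξ N (hd.all hm (by linarith))

theorem windows (ξ : ℝ) (hξ : ξ ≠ 0) (m : ℤ) (hm : m = 2 ∨ m = 4 ∨ m = 5 ∨ m = 7) (x y : ℝ)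
    (hA : ∀ z, MapClusterPt z atTop (fr ξ) → x ≤ z ∧ z ≤ x + 1 / 2)
    (hB : ∀ z, MapClusterPt z atTop (fr (m * ξ)) → y ≤ z ∧ z ≤ y + 1 / 2) : False := by
  have hm2 : 2 ≤ m := by omega
  have hm0 : (m : ℝ) ≠ 0 := by
    have : m ≠ 0 := by omega
    exact_mod_cast this
  rcases le_or_gt x 0 with hx | hx
  · exact half_window ξ hξ m hm2 (Or.inl fun z hz => by linarith [(hA z hz).2]) y hB
  rcases le_or_gt (1 / 2) x with hx' | hx'
  · exact half_window ξ hξ m hm2 (Or.inr fun z hz => by linarith [(hA z hz).1]) y hB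
  rcases le_or_gt y 0 with hy | hy
  · exact interior_low ξ hξ m hm x hx hx' hA (fun z hz => by linarith [(hB z hz).2])
  rcases le_or_gt (1 / 2) y with hy' | hy'
  · refine interior_low (-ξ) (neg_ne_zero.mpr hξ) m hm (1 / 2 - x) (by linarith) (by linarith)
      (fun z hz => ?_) (fun z hz => ?_)
    · have := hA _ (neg_cluster ξ hξ z hz)
      constructor <;> linarith [this.1, this.2]
    · rw [mul_neg] at hz
      have := hB _ (neg_cluster (m * ξ) (mul_ne_zero hm0 hξ) z hz)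
      linarith [this.1]
  · exact interior ξ hξ m hm x y hx hx' hy hy' hA hB

/-- `ξ` replaced by `3 ξ / 2` has the same accumulation points -/
theorem cluster_shift (ξ y : ℝ) (h : MapClusterPt y atTop (fr (ξ * (3 / 2)))) :
    MapClusterPt y atTop (fr ξ) := by
  have h1 : fr (ξ * (3 / 2)) = fr ξ ∘ (fun n => n + 1) := by
    funext n
    simp only [fr, Function.comp_apply, pow_succ]
    congr 1
    ring
  rw [h1] at h
  exact MapClusterPt.of_comp (tendsto_add_atTop_nat 1) h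

theorem cluster_shift' (ξ y : ℝ) (h : MapClusterPt y atTop (fr ξ)) :
    MapClusterPt y atTop (fr (ξ * (3 / 2))) := by
  have h1 : fr (ξ * (3 / 2)) = fr ξ ∘ (fun n => n + 1) := by
    funext n
    simp only [fr, Function.comp_apply, pow_succ]
    congr 1
    ring
  rw [h1, MapClusterPt, ← Filter.map_map, map_add_atTop_eq_nat]
  exact h

theorem range_aux (ξ : ℝ) (hξ : ξ ≠ 0) (m : ℤ) (hm : m = 2 ∨ m = 4 ∨ m = 5 ∨ m = 7) :
    (∃ y z, MapClusterPt y atTop (fr ξ) ∧ MapClusterPt z atTop (fr ξ) ∧ 1 / 2 < z - y) ∨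
    ∃ y z, MapClusterPt y atTop (fr (m * ξ)) ∧ MapClusterPt z atTop (fr (m * ξ)) ∧
      1 / 2 < z - y := by
  by_contra hcon
  rw [not_or] at hcon
  obtain ⟨h1, h2⟩ := hcon
  have hx : ∃ x, ∀ z, MapClusterPt z atTop (fr ξ) → x ≤ z ∧ z ≤ x + 1 / 2 := by
    by_contra hn
    push Not at hn
    exact h1 (far_points ξ (fun y hy => by
      obtain ⟨z, hz, hz2⟩ := hn y
      exact absurd (hy z hz).2 (not_le.mpr (hz2 (hy z hz).1))))
  have hy : ∃ x, ∀ z, MapClusterPt z atTop (fr (m * ξ)) → x ≤ z ∧ z ≤ x + 1 / 2 := by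
    by_contra hn
    push Not at hn
    exact h2 (far_points (m * ξ) (fun y hy => by
      obtain ⟨z, hz, hz2⟩ := hn y
      exact absurd (hy z hz).2 (not_le.mpr (hz2 (hy z hz).1))))
  obtain ⟨x, hx⟩ := hx
  obtain ⟨y, hy⟩ := hy
  exact windows ξ hξ m hm x y hx hy

theorem range_main (ξ : ℝ) (hξ : ξ ≠ 0) (m : ℤ) (hm : 2 ≤ m) (hm' : m ≤ 7) :
    (∃ y z, MapClusterPt y atTop (fr ξ) ∧ MapClusterPt z atTop (fr ξ) ∧ 1 / 2 < z - y) ∨
    ∃ y z, MapClusterPt y atTop (fr (m * ξ)) ∧ MapClusterPt z atTop (fr (m * ξ)) ∧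
      1 / 2 < z - y := by
  have aux : ∀ k : ℤ, (k = 2 ∨ k = 4 ∨ k = 5 ∨ k = 7) → ((m : ℝ) = k * (3 / 2)) →
      (∃ y z, MapClusterPt y atTop (fr ξ) ∧ MapClusterPt z atTop (fr ξ) ∧ 1 / 2 < z - y) ∨
      ∃ y z, MapClusterPt y atTop (fr (m * ξ)) ∧ MapClusterPt z atTop (fr (m * ξ)) ∧
        1 / 2 < z - y := by
    intro k hk hmk
    rcases range_aux ξ hξ k hk with h | ⟨y, z, h1, h2, h3⟩
    · exact Or.inl h
    · refine Or.inr ⟨y, z, ?_, ?_, h3⟩
      · rw [hmk, show (k : ℝ) * (3 / 2) * ξ = k * ξ * (3 / 2) by ring]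
        exact cluster_shift' _ _ h1
      · rw [hmk, show (k : ℝ) * (3 / 2) * ξ = k * ξ * (3 / 2) by ring]
        exact cluster_shift' _ _ h2
  have h : m = 2 ∨ m = 3 ∨ m = 4 ∨ m = 5 ∨ m = 6 ∨ m = 7 := by omega
  rcases h with h | h | h | h | h | h
  · exact range_aux ξ hξ m (by omega)
  · exact aux 2 (by norm_num) (by rw [h]; norm_num)
  · exact range_aux ξ hξ m (by omega)
  · exact range_aux ξ hξ m (by omega)
  · exact aux 4 (by norm_num) (by rw [h]; norm_num)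
  · exact range_aux ξ hξ m (by omega)

end Pool.Agent.Helper57.ZM
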