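import Pool.Agent.Helper57.ZM.Range

set_option autoImplicit false
open Filter Topology

namespace Pool.Agent.Helper57.ZM

/-- orbit data with all differences smaller than `L` -/
structure Dl (m : ℤ) (L : ℝ) (a b : ℕ → ℝ) (s t c : ℕ → ℤ) : Prop extends Orb m a b s t c where
  ha : ∀ k, 0 ≤ a k ∧ a k < 1
  hb : ∀ k, 0 ≤ b k ∧ b k < 1
  da : ∀ i j, a i - a j < L
  db : ∀ i j, b i - b j < L

variable {m : ℤ} {L : ℝ} {a b : ℕ → ℝ} {s t c : ℕ → ℤ}

theorem dl_digit (x : ℕ → ℝ) (z : ℕ → ℤ) (hx : ∀ k, 2 * x (k + 1) = 3 * x k - z k) (hL : L ≤ 1 / 2)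
    (h : ∀ k, 0 ≤ x k ∧ x k < 1) (d : ∀ i j, x i - x j < L) (k : ℕ) : z k = 0 ∨ z k = 1 := by
  have h1 := h k
  have h3 := hx k
  have d1 := d k (k + 1)
  have d2 := d (k + 1) k
  have h4 : (-1 : ℝ) < z k := by linarith [h1.1]
  have h5 : (z k : ℝ) < 2 := by linarith [h1.2]
  have h6 : (-1 : ℤ) < z k := by exact_mod_cast h4
  have h7 : z k < 2 := by exact_mod_cast h5
  omega

theorem Dl.range (h : Dl m L a b s t c) (hm : 2 ≤ m) (k : ℕ) : 0 ≤ c k ∧ c k ≤ m - 1 := by
  have g1 := h.ha k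
  have g2 := h.hb k
  have g3 := h.hc k
  have hm' : (2 : ℝ) ≤ m := by exact_mod_cast hm
  have h4 : (-1 : ℝ) < c k := by nlinarith [g1.1, g2.2]
  have h5 : ((c k : ℝ)) < m := by nlinarith [g1.2, g2.1]
  have h6 : (-1 : ℤ) < c k := by exact_mod_cast h4
  have h7 : c k < m := by exact_mod_cast h5
  omega

theorem EP_of_det (h : Dl m L a b s t c) (hm : 2 ≤ m)
    (hdet : ∀ k l, c k = c l → s k = s l ∧ t k = t l) : EP s := by
  obtain ⟨K, p, hp, hs, -, -⟩ := h.toOrb.periodic_of (fun k => ⟨(h.ha k).1, (h.ha k).2.le⟩)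
    (fun k => ⟨(h.hb k).1, (h.hb k).2.le⟩) m
    (fun k => ⟨by have := h.range hm k; omega, by have := h.range hm k; omega⟩) hdet
  exact ⟨K, p, hp, hs⟩

/-- two orbits in the same state with different first digits are impossible -/
theorem Dl.no_branch (h : Dl m L a b s t c) (hm : 2 ≤ m) (hL : L ≤ 1 / 2)
    (hLm : L * (2 * m + 3) ≤ m ∨ (Even m ∧ L * (2 * m + 2) ≤ m)) (i j : ℕ) (hc : c i = c j)
    (hi : s i = 0) (hj : s j = 1) : False := by
  have hm' : (2 : ℝ) ≤ m := by exact_mod_cast hm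
  have t1 := dl_digit b t h.sb hL h.hb h.db i
  have t2 := dl_digit b t h.sb hL h.hb h.db j
  have s1 := h.step i
  have s2 := h.step j
  have u1 := h.hc (i + 1)
  have u2 := h.hc (j + 1)
  have v1 := h.sb i
  have v2 := h.sb j
  have w1 := h.da (i + 1) (j + 1)
  have w2 := h.db (j + 1) (i + 1)
  have w3 := h.db j i
  have w4 := h.db i j
  rw [hi] at s1
  rw [hj] at s2
  -- the difference of the next states
  have e1 : 2 * ((c (i + 1) : ℝ) - c (j + 1)) = m + t i - t j := by
    have : 2 * (c (i + 1) - c (j + 1)) = m + t i - t j := by rw [hc] at s1; linarith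
    exact_mod_cast this
  have e2 : (m : ℝ) * (a (i + 1) - a (j + 1)) = (c (i + 1) - c (j + 1)) + (b (i + 1) - b (j + 1)) := by
    linarith
  have e3 : (m : ℝ) * (a (i + 1) - a (j + 1)) < m * L := by
    apply mul_lt_mul_of_pos_left w1
    linarith
  rcases hLm with hLm | ⟨hev, hLm⟩
  · rcases t1 with t1 | t1 <;> rcases t2 with t2 | t2 <;> rw [t1] at e1 v1 <;> rw [t2] at e1 v2 <;>
      push_cast at e1 v1 v2
    · -- t equal: m even
      nlinarith
    · nlinarith
    · nlinarith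
    · nlinarith
  · obtain ⟨r, hr⟩ := hev
    have ht : t i = t j := by
      rcases t1 with t1 | t1 <;> rcases t2 with t2 | t2 <;> rw [t1, t2]
      · exfalso
        rw [t1, hc] at s1
        rw [t2] at s2
        omega
      · exfalso
        rw [t1, hc] at s1
        rw [t2] at s2
        omega
    rw [ht] at e1
    nlinarith

/-- small differences give eventually periodic digits -/
theorem Dl.ep (h : Dl m L a b s t c) (hm : 2 ≤ m) (hL : L ≤ 1 / 2)
    (hLm : L * (2 * m + 3) ≤ m ∨ (Even m ∧ L * (2 * m + 2) ≤ m)) : EP s := by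
  have hs := dl_digit a s h.sa hL h.ha h.da
  have ht := dl_digit b t h.sb hL h.hb h.db
  refine EP_of_det h hm fun k l hkl => ?_
  have h1 : s k = s l := by
    rcases hs k with e1 | e1 <;> rcases hs l with e2 | e2
    · rw [e1, e2]
    · exact absurd (h.no_branch hm hL hLm k l hkl e1 e2) id
    · exact absurd (h.no_branch hm hL hLm l k hkl.symm e2 e1) id
    · rw [e1, e2]
  refine ⟨h1, ?_⟩
  have s1 := h.step k
  have s2 := h.step l
  rw [hkl, h1] at s1
  rcases ht k with e1 | e1 <;> rcases ht l with e2 | e2 <;> rw [e1, e2] <;> exfalso <;>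
    rw [e1] at s1 <;> rw [e2] at s2 <;> omega

end Pool.Agent.Helper57.ZM
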