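import Pool.Agent.Helper57.ZM.Main

set_option autoImplicit false
open Filter Topology

namespace Pool.Agent.Helper57.ZM

/-- a sequence over a finite alphabet that is not eventually periodic has, for every `K`, two positions
with different letters and the same `K` following letters -/
theorem left_special (w : ℕ → Bool) (K : ℕ)
    (h : ∀ j j', (∀ i, 1 ≤ i → i ≤ K → w (j + i) = w (j' + i)) → w j = w j') :
    ∃ L p : ℕ, 0 < p ∧ ∀ j, w (L + p + j) = w (L + j) := by
  classical
  -- the state at `j`: the letters `w j, …, w (j+K)`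
  let V : ℕ → (Fin (K + 1) → Bool) := fun j i => w (j + i)
  have hV0 : ∀ j, V j 0 = w j := fun j => by simp [V]
  have back : ∀ j j', V (j + 1) = V (j' + 1) → V j = V j' := by
    intro j j' hjj
    have h1 : ∀ i, 1 ≤ i → i ≤ K + 1 → w (j + i) = w (j' + i) := by
      intro i hi hi'
      have := congrFun hjj ⟨i - 1, by omega⟩
      simp only [V] at this
      rwa [show j + 1 + (i - 1) = j + i by omega, show j' + 1 + (i - 1) = j' + i by omega] at this
    have h2 : w j = w j' := h j j' (fun i hi hi' => h1 i hi (by omega))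
    funext i
    rcases Nat.eq_zero_or_pos (i : ℕ) with hi | hi
    · simp only [V, hi, add_zero]; exact h2
    · simp only [V]
      exact h1 i hi (by have := i.2; omega)
  -- the set of states and the predecessor map
  let S0 : Set (Fin (K + 1) → Bool) := Set.range V
  let S1 : Set (Fin (K + 1) → Bool) := Set.range (fun j => V (j + 1))
  have hsub : S1 ⊆ S0 := by
    rintro _ ⟨j, rfl⟩
    exact ⟨j + 1, rfl⟩
  have hfin0 : S0.Finite := Set.toFinite _
  have hfin1 : S1.Finite := Set.toFinite _
  -- choose an index for each element of `S1`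
  have hch : ∀ v : Fin (K + 1) → Bool, ∃ u : Fin (K + 1) → Bool, ∀ j, V (j + 1) = v → V j = u := by
    intro v
    by_cases hv : ∃ j, V (j + 1) = v
    · obtain ⟨j, hj⟩ := hv
      exact ⟨V j, fun j' hj' => back j' j (by rw [hj', hj])⟩
    · push Not at hv
      exact ⟨v, fun j hj => absurd hj (hv j)⟩
  choose g hg using hch
  have himg : S0 ⊆ g '' S1 := by
    rintro _ ⟨j, rfl⟩
    exact ⟨V (j + 1), ⟨j, rfl⟩, (hg _ j rfl).symm⟩
  have hc1 : S0.ncard ≤ S1.ncard :=
    (Set.ncard_le_ncard himg (hfin1.image g)).trans (Set.ncard_image_le hfin1)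
  have hc2 : S1.ncard ≤ S0.ncard := Set.ncard_le_ncard hsub hfin0
  have hS : S1 = S0 := Set.eq_of_subset_of_ncard_le hsub hc1 hfin0
  have hinj : Set.InjOn g S1 := by
    apply Set.injOn_of_ncard_image_eq _ hfin1
    apply le_antisymm (Set.ncard_image_le hfin1)
    exact hc2.trans (Set.ncard_le_ncard himg (hfin1.image g))
  have fwd : ∀ j j', V j = V j' → V (j + 1) = V (j' + 1) := by
    intro j j' hjj
    apply hinj ⟨j, rfl⟩ ⟨j', rfl⟩
    show g (V (j + 1)) = g (V (j' + 1))
    rw [← hg _ j rfl, ← hg _ j' rfl, hjj]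
  obtain ⟨x, y, hxy, hc⟩ := Finite.exists_ne_map_eq_of_infinite V
  have main : ∀ L p : ℕ, 0 < p → V (L + p) = V L →
      ∃ L p : ℕ, 0 < p ∧ ∀ j, w (L + p + j) = w (L + j) := by
    intro L p hp hL
    have : ∀ j, V (L + p + j) = V (L + j) := by
      intro j
      induction j with
      | zero => exact hL
      | succ j ih => exact fwd _ _ ih
    exact ⟨L, p, hp, fun j => by rw [← hV0, ← hV0 (L + j), this j]⟩
  rcases lt_or_gt_of_ne hxy with h1 | h1
  · exact main x (y - x) (by omega) (by rw [show x + (y - x) = y by omega]; exact hc.symm)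
  · exact main y (x - y) (by omega) (by rw [show y + (x - y) = x by omega]; exact hc)

end Pool.Agent.Helper57.ZM
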